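import Pool.Agent.helper21.WT.MIf

/-! [MH] Assembly of part M: coarse Mostow rigidity. -/

set_option autoImplicit false
open Matrix MeasureTheory Filter Topology

namespace Pool.Agent.helper88.WB
open Pool.Agent.helper21.WB

theorem kact_inv_kact {g : GLI} (hg : InG g) {u : Fin 4 → ℝ} (hu : u ∈ Bal) :
    kact g⁻¹ (kact g u) = u := by
  rw [← kact_mul hg.inv hg hu, inv_mul_cancel, kact_one]

theorem kact_kact_inv {g : GLI} (hg : InG g) {u : Fin 4 → ℝ} (hu : u ∈ Bal) :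
    kact g (kact g⁻¹ u) = u := by
  rw [← kact_mul hg hg.inv hu, mul_inv_cancel, kact_one]

theorem mem_Bal {u : Fin 4 → ℝ} (hu : u ∈ Sph) : u ∈ Bal := Sph_subset_Bal hu

theorem kact_injOn {g : GLI} (hg : InG g) : Set.InjOn (kact g) Sph := by
  intro u hu v hv h
  rw [← kact_inv_kact hg (mem_Bal hu), h, kact_inv_kact hg (mem_Bal hv)]

/-- Equivariance of the boundary map. -/
theorem equiv_of_coarse {F : X → X} {θ : (Fin 4 → ℝ) → (Fin 4 → ℝ)} {a : ℝ}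
    (hθ : Set.MapsTo θ Sph Sph)
    (hlim : ∀ (x : ℕ → X) (u : Fin 4 → ℝ), u ∈ Sph → Tendsto (fun n => kp (x n)) atTop (𝓝 u) →
        Tendsto (fun n => kp (F (x n))) atTop (𝓝 (θ u)))
    {g h : GLI} (hg : InG g) (hh : InG h) (H : ∀ x, hd (F (act g x)) (act h (F x)) ≤ a)
    {u : Fin 4 → ℝ} (hu : u ∈ Sph) : θ (kact g u) = kact h (θ u) := by
  have h1 : Tendsto (fun n : ℕ => kp (ray u n)) atTop (𝓝 u) :=
    (tendsto_kp_ray hu).comp tendsto_natCast_atTop_atTop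
  have h2 : Tendsto (fun n : ℕ => kp (act g (ray u n))) atTop (𝓝 (kact g u)) := by
    have := tendsto_kact (g := fun _ => g) (fun _ => hg) hg tendsto_const_nhds
      (fun n : ℕ => kp_mem_Bal (ray u n)) (mem_Bal hu) h1
    simpa only [← kp_act hg] using this
  have h3 := hlim _ _ (kact_mem_Sph hg hu) h2
  have h4 := hlim _ _ hu h1
  have h5 : Tendsto (fun n : ℕ => kp (act h (F (ray u n)))) atTop (𝓝 (kact h (θ u))) := by
    have := tendsto_kact (g := fun _ => h) (fun _ => hh) hh tendsto_const_nhds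
      (fun n : ℕ => kp_mem_Bal (F (ray u n))) (mem_Bal (hθ hu)) h4
    simpa only [← kp_act hh] using this
  have h6 := tendsto_of_bdd (hθ (kact_mem_Sph hg hu)) h3 (fun n => H (ray u n))
  exact tendsto_nhds_unique h6 h5

/-- The chart version of a self map of the sphere fixing `pinf`. -/
theorem exists_chart_homeo {θ θ' : (Fin 4 → ℝ) → (Fin 4 → ℝ)}
    (hθ : Set.MapsTo θ Sph Sph) (hθ' : Set.MapsTo θ' Sph Sph)
    (hc : ContinuousOn θ Sph) (hc' : ContinuousOn θ' Sph)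
    (h1 : ∀ u ∈ Sph, θ' (θ u) = u) (h2 : ∀ u ∈ Sph, θ (θ' u) = u) (hinf : θ pinf = pinf) :
    ∃ f : E ≃ₜ E, ∀ x, θ (st x) = st (f x) := by
  have hinf' : θ' pinf = pinf := by
    have := h1 pinf pinf_mem
    rwa [hinf] at this
  have e1 : ∀ x : E, ∃ y : E, st y = θ (st x) := by
    intro x
    refine exists_st (hθ (st_mem x)) ?_
    intro h
    have : st x = pinf := by rw [← h1 _ (st_mem x), h, hinf']
    exact st_ne_pinf x this
  have e2 : ∀ x : E, ∃ y : E, st y = θ' (st x) := by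
    intro x
    refine exists_st (hθ' (st_mem x)) ?_
    intro h
    have : st x = pinf := by rw [← h2 _ (st_mem x), h, hinf]
    exact st_ne_pinf x this
  choose f hf using e1
  choose f' hf' using e2
  have l : ∀ x, f' (f x) = x := by
    intro x
    apply st_injective
    rw [hf', hf, h1 _ (st_mem x)]
  have r : ∀ x, f (f' x) = x := by
    intro x
    apply st_injective
    rw [hf, hf', h2 _ (st_mem x)]
  have cf : Continuous f := by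
    rw [continuous_iff_continuousAt]
    intro x
    refine tendsto_of_st ?_
    have : Tendsto (fun y => θ (st y)) (𝓝 x) (𝓝 (θ (st x))) := by
      have h3 : Tendsto st (𝓝 x) (𝓝[Sph] (st x)) :=
        tendsto_nhdsWithin_iff.2 ⟨continuous_st.continuousAt, Eventually.of_forall st_mem⟩
      exact (hc _ (st_mem x)).tendsto.comp h3
    simpa only [hf] using this
  have cf' : Continuous f' := by
    rw [continuous_iff_continuousAt]
    intro x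
    refine tendsto_of_st ?_
    have : Tendsto (fun y => θ' (st y)) (𝓝 x) (𝓝 (θ' (st x))) := by
      have h3 : Tendsto st (𝓝 x) (𝓝[Sph] (st x)) :=
        tendsto_nhdsWithin_iff.2 ⟨continuous_st.continuousAt, Eventually.of_forall st_mem⟩
      exact (hc' _ (st_mem x)).tendsto.comp h3
    simpa only [hf'] using this
  exact ⟨{ toFun := f, invFun := f', left_inv := l, right_inv := r,
           continuous_toFun := cf, continuous_invFun := cf' }, fun x => (hf x).symm⟩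

/-- Quasi-Moebius and fixing infinity implies weakly quasisymmetric. -/
theorem wqs_of_qm {H : ℝ} (hH : 0 < H) {θ : (Fin 4 → ℝ) → (Fin 4 → ℝ)} (hQ : QM H θ)
    (hinf : θ pinf = pinf) {f : E → E} (hf : ∀ x, θ (st x) = st (f x)) : WQS (Real.sqrt H) f := by
  intro x y z h
  have h0 := hQ (st x) (st_mem x) (st y) (st_mem y) (st z) (st_mem z) pinf pinf_mem
  rw [hinf, hf, hf, hf, bb_st, bb_st, bb_st, bb_st, bb_st_pinf, bb_st_pinf, bb_st_pinf,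
    bb_st_pinf] at h0
  have px : 0 < 1 + ‖x‖ ^ 2 := by positivity
  have py : 0 < 1 + ‖y‖ ^ 2 := by positivity
  have pz : 0 < 1 + ‖z‖ ^ 2 := by positivity
  have h1 := h0 (by
    have e1 : 2 * ‖x - y‖ ^ 2 / ((1 + ‖x‖ ^ 2) * (1 + ‖y‖ ^ 2)) * (2 / (1 + ‖z‖ ^ 2)) =
      4 * ‖x - y‖ ^ 2 / ((1 + ‖x‖ ^ 2) * (1 + ‖y‖ ^ 2) * (1 + ‖z‖ ^ 2)) := by
      field_simp; ring
    have e2 : 2 * ‖x - z‖ ^ 2 / ((1 + ‖x‖ ^ 2) * (1 + ‖z‖ ^ 2)) * (2 / (1 + ‖y‖ ^ 2)) =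
      4 * ‖x - z‖ ^ 2 / ((1 + ‖x‖ ^ 2) * (1 + ‖y‖ ^ 2) * (1 + ‖z‖ ^ 2)) := by
      field_simp; ring
    rw [e1, e2]
    have : ‖x - y‖ ^ 2 ≤ ‖x - z‖ ^ 2 := by gcongr
    gcongr)
  have qx : 0 < 1 + ‖f x‖ ^ 2 := by positivity
  have qy : 0 < 1 + ‖f y‖ ^ 2 := by positivity
  have qz : 0 < 1 + ‖f z‖ ^ 2 := by positivity
  have e1 : 2 * ‖f x - f y‖ ^ 2 / ((1 + ‖f x‖ ^ 2) * (1 + ‖f y‖ ^ 2)) * (2 / (1 + ‖f z‖ ^ 2)) =
      ‖f x - f y‖ ^ 2 * (4 / ((1 + ‖f x‖ ^ 2) * (1 + ‖f y‖ ^ 2) * (1 + ‖f z‖ ^ 2))) := by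
      field_simp; ring
  have e2 : H * (2 * ‖f x - f z‖ ^ 2 / ((1 + ‖f x‖ ^ 2) * (1 + ‖f z‖ ^ 2)) * (2 / (1 + ‖f y‖ ^ 2))) =
      H * ‖f x - f z‖ ^ 2 * (4 / ((1 + ‖f x‖ ^ 2) * (1 + ‖f y‖ ^ 2) * (1 + ‖f z‖ ^ 2))) := by
      field_simp; ring
  rw [e1, e2] at h1
  have h2 : ‖f x - f y‖ ^ 2 ≤ H * ‖f x - f z‖ ^ 2 := le_of_mul_le_mul_right h1 (by positivity)
  have h3 : (Real.sqrt H * ‖f x - f z‖) ^ 2 = H * ‖f x - f z‖ ^ 2 := by
    rw [mul_pow, Real.sq_sqrt hH.le]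
  rw [← h3] at h2
  exact le_of_sq_le_sq h2 (by positivity)
  where le_of_sq_le_sq {a b : ℝ} (h : a ^ 2 ≤ b ^ 2) (hb : 0 ≤ b) : a ≤ b :=
    abs_le_of_sq_le_sq' h hb |>.2

/-- a conformal linear map is a multiple of an isometry -/
theorem exists_isometry {A : E ≃L[ℝ] E} {c : ℝ} (hc : 0 < c) (h : ∀ v : E, ‖A v‖ = c * ‖v‖) :
    ∃ L : E ≃ₗᵢ[ℝ] E, ∀ v, A v = c • L v := by
  refine ⟨{ toLinearEquiv := A.toLinearEquiv.trans (LinearEquiv.smulOfNeZero ℝ E c⁻¹ (by positivity))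
            norm_map' := fun v => ?_ }, fun v => ?_⟩
  · show ‖c⁻¹ • A v‖ = ‖v‖
    rw [norm_smul, h, Real.norm_eq_abs, abs_of_pos (by positivity)]
    field_simp
  · show A v = c • (c⁻¹ • A v)
    rw [smul_smul, mul_inv_cancel₀ hc.ne', one_smul]

/-- Rigidity on the boundary, normalised at infinity. -/
theorem bd_rigid₀ {Γ : Subgroup GLI} {F₀ : Set X} (hL : Lat Γ F₀)
    {θ θ' : (Fin 4 → ℝ) → (Fin 4 → ℝ)}
    (hθ : Set.MapsTo θ Sph Sph) (hθ' : Set.MapsTo θ' Sph Sph)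
    (hc : ContinuousOn θ Sph) (hc' : ContinuousOn θ' Sph)
    (h1 : ∀ u ∈ Sph, θ' (θ u) = u) (h2 : ∀ u ∈ Sph, θ (θ' u) = u) (hinf : θ pinf = pinf)
    {H : ℝ} (hH : 0 < H) (hQ : QM H θ) {ρ : Γ → GLI} (hρ : ∀ γ, InG (ρ γ))
    (heq : ∀ γ : Γ, ∀ u ∈ Sph, θ (kact γ.1 u) = kact (ρ γ) (θ u)) :
    ∃ g : GLI, InG g ∧ ∀ u ∈ Sph, θ u = kact g u := by
  have hinG : ∀ γ ∈ Γ, InG γ := hL.inG
  have hinj : Set.InjOn θ Sph := by
    intro u hu v hv h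
    rw [← h1 u hu, h, h1 v hv]
  obtain ⟨f, hf⟩ := exists_chart_homeo hθ hθ' hc hc' h1 h2 hinf
  have hW := wqs_of_qm hH hQ hinf hf
  obtain ⟨r, hr⟩ := conical hL
  obtain ⟨x, hx, A, hA⟩ := exists_diff f hW _ hr
  have hx' : ∀ ε : ℝ, 0 < ε → ∃ t : ℝ, 0 < t ∧ t < ε ∧ ∃ γ ∈ Γ, hd (hp x t) (act γ 0) ≤ r := by
    simpa using hx
  obtain ⟨m, k, hm, hk, hz, hz'⟩ := zoom hinG hθ hc hinj hinf hf hρ heq hA hx'
  -- the linear map is conformal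
  obtain ⟨γ, hγ, hγ'⟩ := no_common_fixed hL (kact_mem_Sph hk pinf_mem)
  have hrel : ∀ u ∈ Sph, Rel A u (kact m (θ (kact k u))) := by
    intro u hu
    by_cases h : u = pinf
    · exact Or.inl ⟨h, by rw [h]; exact hz'⟩
    · obtain ⟨y, rfl⟩ := exists_st hu h
      exact Or.inr ⟨y, rfl, hz y⟩
  have hrel' : ∀ u v, Rel A u v → u ∈ Sph ∧ v = kact m (θ (kact k u)) := by
    intro u v h
    rcases h with ⟨rfl, rfl⟩ | ⟨y, rfl, rfl⟩
    · exact ⟨pinf_mem, hz'.symm⟩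
    · exact ⟨st_mem y, (hz y).symm⟩
  have hg : InG (k⁻¹ * γ * k) := (hk.inv.mul (hinG γ hγ)).mul hk
  have hg' : InG (m * ρ ⟨γ, hγ⟩ * m⁻¹) := (hm.mul (hρ _)).mul hm.inv
  have hconj : ∀ u v, Rel A u v → Rel A (kact (k⁻¹ * γ * k) u) (kact (m * ρ ⟨γ, hγ⟩ * m⁻¹) v) := by
    intro u v h
    obtain ⟨hu, rfl⟩ := hrel' u v h
    have hku : kact k u ∈ Sph := kact_mem_Sph hk hu
    have hγu : kact γ (kact k u) ∈ Sph := kact_mem_Sph (hinG γ hγ) hku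
    have e1 : kact (k⁻¹ * γ * k) u = kact k⁻¹ (kact γ (kact k u)) := by
      rw [kact_mul (hk.inv.mul (hinG γ hγ)) hk (mem_Bal hu),
        kact_mul hk.inv (hinG γ hγ) (mem_Bal hku)]
    have hu' : kact (k⁻¹ * γ * k) u ∈ Sph := kact_mem_Sph hg hu
    have := hrel _ hu'
    have e2 : kact m (θ (kact k (kact (k⁻¹ * γ * k) u))) =
        kact (m * ρ ⟨γ, hγ⟩ * m⁻¹) (kact m (θ (kact k u))) := by
      have hθku : θ (kact k u) ∈ Sph := hθ hku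
      rw [e1, kact_kact_inv hk (mem_Bal hγu), heq ⟨γ, hγ⟩ _ hku,
        kact_mul (hm.mul (hρ _)) hm.inv (mem_Bal (kact_mem_Sph hm hθku)),
        kact_inv_kact hm (mem_Bal hθku), kact_mul hm (hρ _) (mem_Bal hθku)]
    rwa [e2] at this
  have hmove : kact (k⁻¹ * γ * k) pinf ≠ pinf := by
    intro h
    apply hγ'
    have hkp : kact k pinf ∈ Sph := kact_mem_Sph hk pinf_mem
    have hγu : kact γ (kact k pinf) ∈ Sph := kact_mem_Sph (hinG γ hγ) hkp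
    rw [kact_mul (hk.inv.mul (hinG γ hγ)) hk (mem_Bal pinf_mem),
      kact_mul hk.inv (hinG γ hγ) (mem_Bal hkp)] at h
    rw [← kact_kact_inv hk (mem_Bal hγu), h]
  obtain ⟨c, hc0, hcA⟩ := conf_of_conj A _ _ hg hg' hconj hmove
  obtain ⟨L, hLA⟩ := exists_isometry hc0 hcA
  obtain ⟨S, hS, hS1, hS2, -⟩ := exists_sim L 0 hc0
  have hS1' : ∀ y, kact S (st y) = st (A y) := by
    intro y
    refine kact_st_of (c := c⁻¹) (by positivity) ?_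
    rw [hS1, zero_add, hLA]
  have hS2' : kact S pinf = pinf := kact_pinf_of hc0 hS2
  have hall : ∀ u ∈ Sph, kact m (θ (kact k u)) = kact S u := by
    intro u hu
    by_cases h : u = pinf
    · rw [h, hz', hS2']
    · obtain ⟨y, rfl⟩ := exists_st hu h
      rw [hz, hS1']
  refine ⟨m⁻¹ * S * k⁻¹, (hm.inv.mul hS).mul hk.inv, fun u hu => ?_⟩
  have hk' : kact k⁻¹ u ∈ Sph := kact_mem_Sph hk.inv hu
  have := hall _ hk'
  rw [kact_kact_inv hk (mem_Bal hu)] at this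
  rw [kact_mul (hm.inv.mul hS) hk.inv (mem_Bal hu), kact_mul hm.inv hS (mem_Bal hk'), ← this,
    kact_inv_kact hm (mem_Bal (hθ hu))]

/-- Rigidity on the boundary. -/
theorem bd_rigid {Γ : Subgroup GLI} {F₀ : Set X} (hL : Lat Γ F₀)
    {θ θ' : (Fin 4 → ℝ) → (Fin 4 → ℝ)}
    (hθ : Set.MapsTo θ Sph Sph) (hθ' : Set.MapsTo θ' Sph Sph)
    (hc : ContinuousOn θ Sph) (hc' : ContinuousOn θ' Sph)
    (h1 : ∀ u ∈ Sph, θ' (θ u) = u) (h2 : ∀ u ∈ Sph, θ (θ' u) = u)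
    {H : ℝ} (hH : 0 < H) (hQ : QM H θ) {ρ : Γ → GLI} (hρ : ∀ γ, InG (ρ γ))
    (heq : ∀ γ : Γ, ∀ u ∈ Sph, θ (kact γ.1 u) = kact (ρ γ) (θ u)) :
    ∃ g : GLI, InG g ∧ ∀ u ∈ Sph, θ u = kact g u := by
  obtain ⟨b, hb, hb'⟩ := exists_to_pinf (hθ pinf_mem)
  have hbθ : Set.MapsTo (fun u => kact b (θ u)) Sph Sph := fun u hu => kact_mem_Sph hb (hθ hu)
  obtain ⟨g, hg, h⟩ := bd_rigid₀ hL (θ := fun u => kact b (θ u)) (θ' := fun u => θ' (kact b⁻¹ u))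
    hbθ (fun u hu => hθ' (kact_mem_Sph hb.inv hu))
    (((continuousOn_kact hb).mono Sph_subset_Bal).comp hc hθ)
    (hc'.comp ((continuousOn_kact hb.inv).mono Sph_subset_Bal) (fun u hu => kact_mem_Sph hb.inv hu))
    (fun u hu => by
      show θ' (kact b⁻¹ (kact b (θ u))) = u
      rw [kact_inv_kact hb (mem_Bal (hθ hu)), h1 u hu])
    (fun u hu => by
      show kact b (θ (θ' (kact b⁻¹ u))) = u
      rw [h2 _ (kact_mem_Sph hb.inv hu), kact_kact_inv hb (mem_Bal hu)])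
    hb' hH (QM.comp hθ hQ hb) (ρ := fun γ => b * ρ γ * b⁻¹) (fun γ => (hb.mul (hρ γ)).mul hb.inv)
    (fun γ u hu => by
      show kact b (θ (kact γ.1 u)) = kact (b * ρ γ * b⁻¹) (kact b (θ u))
      rw [heq γ u hu, kact_mul (hb.mul (hρ γ)) hb.inv (mem_Bal (kact_mem_Sph hb (hθ hu))),
        kact_inv_kact hb (mem_Bal (hθ hu)), kact_mul hb (hρ γ) (mem_Bal (hθ hu))])
  refine ⟨b⁻¹ * g, hb.inv.mul hg, fun u hu => ?_⟩
  have h3 : kact b (θ u) = kact g u := h u hu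
  rw [kact_mul hb.inv hg (mem_Bal hu), ← h3, kact_inv_kact hb (mem_Bal (hθ hu))]

/-- [M] Mostow rigidity in coarse form. -/
theorem mostow' : ∀ a : ℝ, ∃ D₂ : ℝ, ∀ (Γ Γ' : Subgroup GLI) (F₀ : Set X), Lat Γ F₀ → Disc Γ' →
    ∀ (φ : Γ ≃* Γ') (F F' : X → X),
      (∀ x y, hd x y ≤ D₂ → |hd (F x) (F y) - hd x y| ≤ a) →
      (∀ x y, hd x y ≤ D₂ → |hd (F' x) (F' y) - hd x y| ≤ a) →
      (∀ (γ : Γ) x, hd (F (act γ.1 x)) (act (φ γ).1 (F x)) ≤ a) →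
      (∀ x, hd (F' (F x)) x ≤ a) → (∀ x, hd (F (F' x)) x ≤ a) →
      ∃ g : GLI, InG g ∧ ∀ γ : Γ, (φ γ).1 = g * γ.1 * g⁻¹ := by
  intro a
  obtain ⟨D, H, hH, hD⟩ := boundary_map a
  refine ⟨D, ?_⟩
  intro Γ Γ' F₀ hL hΓ' φ F F' hF hF' heq hFF hFF'
  obtain ⟨θ, θ', hθ, hθ', hc, hc', h1, h2, hlim, hQ⟩ := hD F F' hF hF' hFF hFF'
  have hρ : ∀ γ : Γ, InG (φ γ).1 := fun γ => hΓ'.inG _ (φ γ).2
  have heq' : ∀ γ : Γ, ∀ u ∈ Sph, θ (kact γ.1 u) = kact (φ γ).1 (θ u) :=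
    fun γ u hu => equiv_of_coarse hθ hlim (hL.inG _ γ.2) (hρ γ) (heq γ) hu
  obtain ⟨g, hg, h⟩ := bd_rigid hL hθ hθ' hc hc' h1 h2 hH hQ (ρ := fun γ => (φ γ).1) hρ heq'
  refine ⟨g, hg, fun γ => ?_⟩
  have hγ : InG γ.1 := hL.inG _ γ.2
  have key : (φ γ).1 * g = g * γ.1 := by
    refine eq_of_kact ((hρ γ).mul hg) (hg.mul hγ) (fun u hu => ?_)
    rw [kact_mul (hρ γ) hg (mem_Bal hu), kact_mul hg hγ (mem_Bal hu), ← h u hu, ← heq' γ u hu,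
      h _ (kact_mem_Sph hγ hu)]
  rw [← key]; group

end Pool.Agent.helper88.WB
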