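import Pool.Agent.helper21.WB.LibZ

/-! Module WB-Z4: counting small elements of a discrete group by packing. -/

set_option autoImplicit false
open Matrix MeasureTheory

namespace Pool.Agent.helper21.WB
namespace Z4

open Module Metric
open scoped ENNReal

open scoped Function in
/-- packing in a finite dimensional normed space -/
theorem card_le_packing {E : Type*} [NormedAddCommGroup E] [NormedSpace ℝ E] [FiniteDimensional ℝ E]
    (s : Finset E) {R ρ : ℝ} (hR : 0 ≤ R) (hρ : 0 < ρ) (hs : ∀ c ∈ s, ‖c‖ ≤ R)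
    (h : ∀ c ∈ s, ∀ d ∈ s, c ≠ d → ρ ≤ ‖c - d‖) :
    (s.card : ℝ) ≤ (1 + 2 * R / ρ) ^ finrank ℝ E := by
  borelize E
  let μ : Measure E := Measure.addHaar
  let δ : ℝ := ρ / 2
  let r : ℝ := R + ρ / 2
  have hδ : 0 < δ := by positivity
  have rpos : 0 < r := by positivity
  set A := ⋃ c ∈ s, ball (c : E) δ with hA
  have D : Set.Pairwise (s : Set E) (Disjoint on fun c => ball (c : E) δ) := by
    rintro c hc d hd hcd
    apply ball_disjoint_ball
    rw [dist_eq_norm]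
    have := h c hc d hd hcd
    show ρ / 2 + ρ / 2 ≤ ‖c - d‖
    linarith
  have A_subset : A ⊆ ball (0 : E) r := by
    refine Set.iUnion₂_subset fun x hx => ?_
    apply ball_subset_ball'
    rw [dist_zero_right]
    have := hs x hx
    show ρ / 2 + ‖x‖ ≤ R + ρ / 2
    linarith
  have I :
    (s.card : ℝ≥0∞) * ENNReal.ofReal (δ ^ finrank ℝ E) * μ (ball 0 1) ≤
      ENNReal.ofReal (r ^ finrank ℝ E) * μ (ball 0 1) :=
    calc
      (s.card : ℝ≥0∞) * ENNReal.ofReal (δ ^ finrank ℝ E) * μ (ball 0 1) = μ A := by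
        rw [hA, measure_biUnion_finset D fun c _ => measurableSet_ball]
        simp only [μ.addHaar_ball_of_pos _ hδ]
        simp only [Finset.sum_const, nsmul_eq_mul, mul_assoc]
      _ ≤ μ (ball (0 : E) r) := measure_mono A_subset
      _ = ENNReal.ofReal (r ^ finrank ℝ E) * μ (ball 0 1) := by
        simp only [μ.addHaar_ball_of_pos _ rpos]
  have J : (s.card : ℝ≥0∞) * ENNReal.ofReal (δ ^ finrank ℝ E) ≤ ENNReal.ofReal (r ^ finrank ℝ E) :=
    (ENNReal.mul_le_mul_iff_left (measure_ball_pos _ _ zero_lt_one).ne' measure_ball_lt_top.ne).1 I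
  have K : (s.card : ℝ) * δ ^ finrank ℝ E ≤ r ^ finrank ℝ E := by
    have := ENNReal.toReal_le_of_le_ofReal (pow_nonneg rpos.le _) J
    simpa [ENNReal.toReal_ofReal (pow_nonneg hδ.le _)] using this
  have e : (1 + 2 * R / ρ) ^ finrank ℝ E = r ^ finrank ℝ E / δ ^ finrank ℝ E := by
    rw [← div_pow]
    congr 1
    simp only [r, δ]
    field_simp
    ring
  rw [e, le_div_iff₀ (pow_pos hδ _)]
  exact K

/-- matrices as a Euclidean space -/
noncomputable def toE : Mat →ₗ[ℝ] EuclideanSpace ℝ (I × I) where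
  toFun A := WithLp.toLp 2 (fun p : I × I => A p.1 p.2)
  map_add' A B := by ext p; rfl
  map_smul' c A := by ext p; rfl

theorem norm_toE (A : Mat) : ‖toE A‖ = fn A := by
  rw [EuclideanSpace.norm_eq]
  unfold fn
  congr 1
  rw [Fintype.sum_prod_type]
  refine Finset.sum_congr rfl (fun i _ => Finset.sum_congr rfl (fun j _ => ?_))
  simp [toE, sq_abs]

/-- packing in a plane of matrices, for the norm at `y` -/
theorem card_le_of_nrm {ι : Type*} (y : X) (T : Finset ι) (f : ι → Mat) (V : Submodule ℝ Mat)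
    (hV : finrank ℝ V ≤ 2) {R ρ : ℝ} (hR : 0 ≤ R) (hρ : 0 < ρ) (hf : ∀ i ∈ T, f i ∈ V)
    (hb : ∀ i ∈ T, nrm y (f i) ≤ R)
    (hs : ∀ i ∈ T, ∀ j ∈ T, i ≠ j → ρ ≤ nrm y (f i - f j)) :
    (T.card : ℝ) ≤ (1 + 2 * R / ρ) ^ 2 := by
  classical
  obtain ⟨g, hg, hgy⟩ := exists_bst y
  let L : Mat →ₗ[ℝ] EuclideanSpace ℝ (I × I) :=
    toE.comp ((LinearMap.mulLeft ℝ (g⁻¹ : GLI).val).comp (LinearMap.mulRight ℝ g.val))
  have hL : ∀ A : Mat, ‖L A‖ = nrm y A := by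
    intro A
    rw [← hgy, nrm_act hg, ← norm_toE]
    show ‖toE ((g⁻¹ : GLI).val * (A * g.val))‖ = _
    rw [Matrix.mul_assoc]
  let W : Submodule ℝ (EuclideanSpace ℝ (I × I)) := V.map L
  have hW : finrank ℝ W ≤ 2 := (Submodule.finrank_map_le L V).trans hV
  let F : {i // i ∈ T} → W := fun i => ⟨L (f i.1), Submodule.mem_map_of_mem (hf i.1 i.2)⟩
  have hsep : ∀ i j : {i // i ∈ T}, i ≠ j → ρ ≤ ‖F i - F j‖ := by
    intro i j hij
    have h1 := hs i.1 i.2 j.1 j.2 (fun h => hij (Subtype.ext h))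
    rw [← hL, map_sub] at h1
    exact h1
  have hinj : Function.Injective F := by
    intro i j hij
    by_contra hne
    have h1 := hsep i j hne
    rw [hij, sub_self, norm_zero] at h1
    linarith
  let s : Finset W := Finset.univ.map ⟨F, hinj⟩
  have hcard : s.card = T.card := by
    rw [Finset.card_map, Finset.card_univ, Fintype.card_coe]
  have hbase : 1 ≤ 1 + 2 * R / ρ := by
    have : 0 ≤ 2 * R / ρ := by positivity
    linarith
  have key := card_le_packing s hR hρ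
    (by
      intro c hc
      obtain ⟨i, -, rfl⟩ := Finset.mem_map.1 hc
      show ‖L (f i.1)‖ ≤ R
      rw [hL]; exact hb i.1 i.2)
    (by
      intro c hc d hd hcd
      obtain ⟨i, -, rfl⟩ := Finset.mem_map.1 hc
      obtain ⟨j, -, rfl⟩ := Finset.mem_map.1 hd
      refine hsep i j ?_
      rintro rfl
      exact hcd rfl)
  rw [hcard] at key
  exact key.trans (pow_le_pow_right₀ hbase hW)

theorem nrm_one (y : X) : nrm y 1 = Real.sqrt 5 := by
  obtain ⟨g, hg, hgy⟩ := exists_bst y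
  rw [← hgy, nrm_act hg, ← fn_one]
  congr 1
  rw [Matrix.mul_one, ← Units.val_mul, inv_mul_cancel, Units.val_one]

theorem sqrt_five_le : Real.sqrt 5 ≤ 3 := by
  rw [Real.sqrt_le_left (by norm_num)]; norm_num

theorem nrm_val_le {γ : GLI} (y : X) (h : sm y γ ≤ 1) : nrm y γ.val ≤ 4 := by
  have e : γ.val = (γ.val - 1) + 1 := by abel
  have h1 := nrm_add y (γ.val - 1) 1
  rw [← e, nrm_one] at h1
  have h2 := sqrt_five_le
  have h3 : nrm y (γ.val - 1) ≤ 1 := h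
  linarith

theorem nrm_inv_le {γ : GLI} (hγ : InG γ) (y : X) (h : sm y γ ≤ 1) : nrm y (γ⁻¹ : GLI).val ≤ 4 :=
  nrm_val_le y (by rw [sm_inv hγ]; exact h)

theorem sm_inv_mul_le {γ δ : GLI} (hγ : InG γ) (y : X) (h : sm y γ ≤ 1) :
    sm y (γ⁻¹ * δ) ≤ 4 * nrm y (γ.val - δ.val) := by
  have e : ((γ⁻¹ * δ : GLI).val - 1) = (γ⁻¹ : GLI).val * (δ.val - γ.val) := by
    rw [Matrix.mul_sub, ← Units.val_mul, ← Units.val_mul, inv_mul_cancel, Units.val_one]
  have e2 : nrm y (δ.val - γ.val) = nrm y (γ.val - δ.val) := by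
    rw [← nrm_neg, neg_sub]
  unfold sm
  rw [e, ← e2]
  calc nrm y ((γ⁻¹ : GLI).val * (δ.val - γ.val)) ≤ nrm y (γ⁻¹ : GLI).val * nrm y (δ.val - γ.val) :=
        nrm_mul _ _ _
    _ ≤ 4 * nrm y (δ.val - γ.val) :=
        mul_le_mul_of_nonneg_right (nrm_inv_le hγ y h) (nrm_nonneg _ _)

theorem Yg_one : Yg 1 = 0 := by
  unfold Yg; simp

/-- packing bound for elements whose antisymmetric parts lie in a plane -/
theorem pack : ∃ η₁ : ℝ, 0 < η₁ ∧ η₁ ≤ 1 ∧ ∀ (Γ : Subgroup GLI), Disc Γ → ∀ (y : X) (s : ℝ),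
    0 < s → s ≤ 1 → (∀ γ ∈ Γ, γ ≠ 1 → s ≤ sm y γ) → ∀ V : Submodule ℝ Mat, finrank ℝ V ≤ 2 →
    ∀ T : Finset GLI, (∀ γ ∈ T, γ ∈ Γ ∧ sm y γ ≤ η₁ ∧ Yg γ ∈ V) → (T.card : ℝ) ≤ 1089 / s ^ 2 := by
  obtain ⟨η, hη, H⟩ := Yg_close
  refine ⟨min η 1, lt_min hη one_pos, min_le_right _ _, ?_⟩
  intro Γ hΓ y s hs hs1 hsep V hV T hT
  have hb : ∀ γ ∈ T, nrm y (Yg γ) ≤ 2 := by
    intro γ hγ
    obtain ⟨h1, h2, -⟩ := hT γ hγ
    have h3 := (H y γ 1 (hΓ.inG γ h1) InG.one (h2.trans (min_le_left _ _))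
      (by rw [(sm_eq_zero y 1).2 rfl]; exact hη.le)).2
    rw [Yg_one, sub_zero] at h3
    have h4 : nrm y (γ.val - (1 : GLI).val) = sm y γ := rfl
    rw [h4] at h3
    have := h2.trans (min_le_right _ _)
    linarith
  have hs' : ∀ γ ∈ T, ∀ δ ∈ T, γ ≠ δ → s / 8 ≤ nrm y (Yg γ - Yg δ) := by
    intro γ hγ δ hδ hne
    obtain ⟨h1, h2, -⟩ := hT γ hγ
    obtain ⟨k1, k2, -⟩ := hT δ hδ
    have h3 := (H y γ δ (hΓ.inG γ h1) (hΓ.inG δ k1) (h2.trans (min_le_left _ _))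
      (k2.trans (min_le_left _ _))).1
    have h4 := sm_inv_mul_le (δ := δ) (hΓ.inG γ h1) y (h2.trans (min_le_right _ _))
    have h5 := hsep (γ⁻¹ * δ) (Γ.mul_mem (Γ.inv_mem h1) k1) (by
      intro h
      exact hne (inv_mul_eq_one.1 h))
    linarith
  have key := card_le_of_nrm y T Yg V hV (by norm_num : (0:ℝ) ≤ 2) (by positivity : 0 < s / 8)
    (fun γ hγ => (hT γ hγ).2.2) hb hs'
  refine key.trans ?_
  have e : (1 + 2 * 2 / (s / 8)) = (s + 32) / s := by field_simp; ring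
  rw [e, div_pow]
  have : (s + 32) ^ 2 ≤ 1089 := by nlinarith
  gcongr

theorem fn_le_of_entries {A : Mat} {c : ℝ} (hc : 0 ≤ c) (h : ∀ i j, |A i j| ≤ c) : fn A ≤ 5 * c := by
  unfold fn
  rw [Real.sqrt_le_left (by positivity)]
  have h1 : ∀ i j, A i j ^ 2 ≤ c ^ 2 := by
    intro i j
    rw [← sq_abs]
    exact pow_le_pow_left₀ (abs_nonneg _) (h i j) 2
  calc ∑ i, ∑ j, A i j ^ 2 ≤ ∑ _i : I, ∑ _j : I, c ^ 2 :=
        Finset.sum_le_sum (fun i _ => Finset.sum_le_sum (fun j _ => h1 i j))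
    _ = (5 * c) ^ 2 := by
        simp only [Finset.sum_const, Finset.card_univ, Fintype.card_sum, Fintype.card_fin,
          Fintype.card_unit, nsmul_eq_mul]
        push_cast
        ring

/-- covering the small elements by translates of the very small elements -/
theorem cover : ∀ η : ℝ, 0 < η → ∃ K : ℕ, 0 < K ∧ ∀ (Γ : Subgroup GLI), Disc Γ → ∀ (y : X) (N : ℝ),
    (∀ T : Finset GLI, (∀ γ ∈ T, γ ∈ Γ ∧ sm y γ < η) → (T.card : ℝ) ≤ N) →
    ∀ T : Finset GLI, (∀ γ ∈ T, γ ∈ Γ ∧ sm y γ ≤ 1) → (T.card : ℝ) ≤ K * N := by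
  classical
  intro η hη
  obtain ⟨n, hn⟩ := exists_nat_gt (20 / η)
  have hn0 : (0:ℝ) < n := lt_trans (by positivity) hn
  obtain ⟨K, hKdef, hK0⟩ : ∃ K : ℕ, K = (8 * n + 1) ^ 25 ∧ 0 < K :=
    ⟨_, rfl, Nat.pow_pos (Nat.succ_pos _)⟩
  refine ⟨K, hK0, ?_⟩
  intro Γ hΓ y N hN T hT
  have hN0 : 0 ≤ N := by simpa using hN ∅ (by simp)
  obtain ⟨g, hg, hgy⟩ := exists_bst y
  let q : GLI → Mat := fun γ => (g⁻¹ : GLI).val * γ.val * g.val
  have hq : ∀ γ : GLI, fn (q γ) = nrm y γ.val := by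
    intro γ
    rw [← hgy, nrm_act hg]
  have hq2 : ∀ γ δ : GLI, fn (q γ - q δ) = nrm y (γ.val - δ.val) := by
    intro γ δ
    rw [← hgy, nrm_act hg]
    congr 1
    simp only [q]
    rw [Matrix.mul_sub, Matrix.sub_mul]
  let r : GLI → (I × I → ℤ) := fun γ p => ⌊q γ p.1 p.2 * n⌋
  let B : Finset (I × I → ℤ) := Fintype.piFinset (fun _ => Finset.Icc (-(4 * n : ℤ)) (4 * n))
  have hBcard : B.card = K := by
    rw [hKdef]
    simp only [B, Fintype.card_piFinset, Finset.prod_const, Finset.card_univ, Fintype.card_prod,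
      Fintype.card_sum, Fintype.card_fin, Fintype.card_unit, Int.card_Icc]
    congr 1
    omega
  clear hKdef
  have hrB : ∀ γ ∈ T, r γ ∈ B := by
    intro γ hγ
    rw [Fintype.mem_piFinset]
    intro p
    have h1 : |q γ p.1 p.2| ≤ 4 :=
      (abs_entry_le_fn _ _ _).trans ((hq γ).le.trans (nrm_val_le y (hT γ hγ).2))
    rw [abs_le] at h1
    rw [Finset.mem_Icc]
    constructor
    · apply Int.le_floor.2
      push_cast
      nlinarith
    · have : (⌊q γ p.1 p.2 * n⌋ : ℝ) ≤ 4 * n := (Int.floor_le _).trans (by nlinarith)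
      exact_mod_cast this
  have hfib : ∀ a ∈ T.image r, (T.filter (fun γ => r γ = a)).card ≤ ⌊N⌋₊ := by
    intro a ha
    obtain ⟨m, hm, hma⟩ := Finset.mem_image.1 ha
    have hmT := hT m hm
    have hmG := hΓ.inG m hmT.1
    let T' : Finset GLI := (T.filter (fun γ => r γ = a)).image (fun γ => m⁻¹ * γ)
    have hc : T'.card = (T.filter (fun γ => r γ = a)).card :=
      Finset.card_image_of_injective _ (mul_right_injective _)
    rw [← hc]
    apply Nat.le_floor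
    apply hN
    intro δ hδ
    obtain ⟨γ, hγ, rfl⟩ := Finset.mem_image.1 hδ
    obtain ⟨hγT, hγa⟩ := Finset.mem_filter.1 hγ
    refine ⟨Γ.mul_mem (Γ.inv_mem hmT.1) (hT γ hγT).1, ?_⟩
    refine (sm_inv_mul_le hmG y hmT.2).trans_lt ?_
    rw [← hq2]
    have h1 : fn (q m - q γ) ≤ 5 * (1 / n) := by
      apply fn_le_of_entries (by positivity)
      intro i j
      have h2 : ⌊q m i j * n⌋ = ⌊q γ i j * n⌋ := congrFun (hma.trans hγa.symm) (i, j)
      have h3 := Int.abs_sub_lt_one_of_floor_eq_floor h2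
      rw [← sub_mul, abs_mul, abs_of_pos hn0] at h3
      rw [Matrix.sub_apply, le_div_iff₀ hn0]
      exact h3.le
    have h4 : 20 / (n : ℝ) < η := by
      rw [div_lt_iff₀ hn0]
      rw [div_lt_iff₀ hη] at hn
      linarith
    calc 4 * fn (q m - q γ) ≤ 4 * (5 * (1 / n)) := by gcongr
      _ = 20 / (n : ℝ) := by ring
      _ < η := h4
  have h1 := Finset.card_le_mul_card_image T ⌊N⌋₊ hfib
  have h2 : (T.image r).card ≤ K := by
    rw [← hBcard]
    apply Finset.card_le_card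
    intro a ha
    obtain ⟨m, hm, rfl⟩ := Finset.mem_image.1 ha
    exact hrB m hm
  have h3 : (T.card : ℝ) ≤ (⌊N⌋₊ : ℝ) * (T.image r).card := by exact_mod_cast h1
  have h4 : ((T.image r).card : ℝ) ≤ (K : ℝ) := by exact_mod_cast h2
  calc (T.card : ℝ) ≤ (⌊N⌋₊ : ℝ) * (T.image r).card := h3
    _ ≤ N * (K : ℝ) :=
        mul_le_mul (Nat.floor_le hN0) h4 (Nat.cast_nonneg _) hN0
    _ = _ := mul_comm _ _

/-- a span of dimension at least three contains three independent generators -/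
theorem exists_three {s : Set Mat} (h : ¬ finrank ℝ (Submodule.span ℝ s) ≤ 2) :
    ∃ f : Fin 3 → Mat, (∀ i, f i ∈ s) ∧ LinearIndependent ℝ f := by
  obtain ⟨f, hf, -, hli⟩ := Submodule.exists_fun_fin_finrank_span_eq ℝ s
  have h3 : 3 ≤ finrank ℝ (Submodule.span ℝ s) := by omega
  exact ⟨fun i => f (Fin.castLE h3 i), fun i => hf _,
    hli.comp _ (Fin.castLE_injective h3)⟩

theorem ncard_le {S : Set GLI} {C : ℝ} (hC : 0 ≤ C)
    (h : ∀ T : Finset GLI, (∀ γ ∈ T, γ ∈ S) → (T.card : ℝ) ≤ C) : (S.ncard : ℝ) ≤ C := by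
  by_cases hS : S.Finite
  · rw [Set.ncard_eq_toFinset_card S hS]
    exact h _ (fun γ hγ => (Set.Finite.mem_toFinset hS).1 hγ)
  · rw [Set.Infinite.ncard hS]; simpa using hC

theorem Yg_comm {γ δ : GLI} (h : γ * δ = δ * γ) : Yg γ * Yg δ = Yg δ * Yg γ := by
  have hc : Commute γ δ := h
  have c1 : Commute γ.val δ.val := congrArg Units.val h
  have c2 : Commute γ.val (δ⁻¹ : GLI).val := congrArg Units.val hc.inv_right.eq
  have c3 : Commute (γ⁻¹ : GLI).val δ.val := congrArg Units.val hc.inv_left.eq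
  have c4 : Commute (γ⁻¹ : GLI).val (δ⁻¹ : GLI).val := congrArg Units.val hc.inv_inv.eq
  unfold Yg
  exact (((c1.sub_right c2).sub_left (c3.sub_right c4)).smul_left _).smul_right _

end Z4

open Z4 Module in
/-- [Z4] counting small elements outside the deep part.  `s` is a lower bound for nontrivial elements. -/
theorem count_small : ∃ η₀ : ℝ, 0 < η₀ ∧ ∀ η : ℝ, 0 < η → η ≤ η₀ → ∃ C : ℝ, 0 < C ∧
    ∀ (Γ : Subgroup GLI), Disc Γ → ∀ (y : X) (s : ℝ), 0 < s → s ≤ 1 → (∀ γ ∈ Γ, γ ≠ 1 → s ≤ sm y γ) →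
    y ∉ Deep Γ η → ({γ | γ ∈ Γ ∧ sm y γ ≤ η₀}.ncard : ℝ) ≤ C / s ^ 2 := by
  obtain ⟨η₁, h0, h1, H⟩ := pack
  refine ⟨η₁, h0, fun η hη hηle => ?_⟩
  obtain ⟨K, hK0, hK⟩ := cover η hη
  refine ⟨K * 1089, by positivity, ?_⟩
  intro Γ hΓ y s hs hs1 hsep hdeep
  have e : (K : ℝ) * 1089 / s ^ 2 = K * (1089 / s ^ 2) := by ring
  rw [e]
  apply ncard_le (by positivity)
  intro T hT
  refine hK Γ hΓ y (1089 / s ^ 2) ?_ T (fun γ hγ => ⟨(hT γ hγ).1, (hT γ hγ).2.trans h1⟩)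
  intro T' hT'
  refine H Γ hΓ y s hs hs1 hsep (Submodule.span ℝ (Yg '' {γ | γ ∈ Γ ∧ sm y γ < η})) ?_ T' ?_
  · by_contra h
    obtain ⟨f, hf, hli⟩ := exists_three h
    choose γ hγ hγf using hf
    apply hdeep
    refine ⟨γ, fun i => hγ i, ?_⟩
    have : (fun i => Yg (γ i)) = f := funext hγf
    rw [this]; exact hli
  · intro γ hγ
    have := hT' γ hγ
    exact ⟨this.1, this.2.le.trans hηle, Submodule.subset_span ⟨γ, this, rfl⟩⟩

open Z4 Module in
/-- [Z4'] the same if a small non unipotent element exists -/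
theorem count_small' : ∃ η₀ C : ℝ, 0 < η₀ ∧ 0 < C ∧
    ∀ (Γ : Subgroup GLI), Disc Γ → ∀ (y : X) (s : ℝ), 0 < s → s ≤ 1 → (∀ γ ∈ Γ, γ ≠ 1 → s ≤ sm y γ) →
    (∃ γ ∈ Γ, sm y γ ≤ η₀ ∧ ¬ Unip γ) → ({γ | γ ∈ Γ ∧ sm y γ ≤ η₀}.ncard : ℝ) ≤ C / s ^ 2 := by
  obtain ⟨η₁, h0, h1, H⟩ := pack
  obtain ⟨η₂, h2, Z⟩ := zassenhaus
  obtain ⟨η₃, h3, U⟩ := unip_of_wedge
  refine ⟨min η₁ (min η₂ η₃), 1089, lt_min h0 (lt_min h2 h3), by norm_num, ?_⟩
  intro Γ hΓ y s hs hs1 hsep ⟨δ, hδ, hδs, hδu⟩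
  apply ncard_le (by positivity)
  intro T hT
  have l1 : min η₁ (min η₂ η₃) ≤ η₁ := min_le_left _ _
  have l2 : min η₁ (min η₂ η₃) ≤ η₂ := (min_le_right _ _).trans (min_le_left _ _)
  have l3 : min η₁ (min η₂ η₃) ≤ η₃ := (min_le_right _ _).trans (min_le_right _ _)
  refine H Γ hΓ y s hs hs1 hsep
    (Submodule.span ℝ (Yg '' {γ | γ ∈ Γ ∧ sm y γ ≤ min η₁ (min η₂ η₃)})) ?_ T ?_
  · by_contra h
    obtain ⟨f, hf, hli⟩ := exists_three h
    choose γ hγ hγf using hf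
    have hc : ∀ α ∈ Γ, sm y α ≤ min η₁ (min η₂ η₃) → ∀ β ∈ Γ, sm y β ≤ min η₁ (min η₂ η₃) →
        Yg α * Yg β = Yg β * Yg α := fun α hα hα' β hβ hβ' =>
      Yg_comm (Z Γ hΓ y α hα β hβ (hα'.trans l2) (hβ'.trans l2))
    obtain ⟨ξ, hξ, hB⟩ := abelian_three (A := f)
      (fun i => by rw [← hγf i]; exact isSo_Yg (hΓ.inG _ (hγ i).1))
      (fun i j => by
        rw [← hγf i, ← hγf j]
        exact hc _ (hγ i).1 (hγ i).2 _ (hγ j).1 (hγ j).2) hli
    obtain ⟨w, hw, hYw⟩ := hB (Yg δ) (isSo_Yg (hΓ.inG δ hδ))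
      (fun i => by
        rw [← hγf i]
        exact hc _ hδ hδs _ (hγ i).1 (hγ i).2)
    exact hδu (U y δ ξ w (hΓ.inG δ hδ) (hδs.trans l3) hξ hw hYw).2.1
  · intro γ hγ
    have := hT γ hγ
    exact ⟨this.1, this.2.trans l1, Submodule.subset_span ⟨γ, this, rfl⟩⟩

end Pool.Agent.helper21.WB
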