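import Pool.Agent.helper21.WB.LibZ
import Pool.Agent.helper21.WT.Z4
import Pool.Agent.helper95.WB.MeanValue
import Pool.Agent.helper40.WB.Sinf

/-! [WB-I2] the Margulis inequality. -/

set_option autoImplicit false
open Matrix MeasureTheory

namespace Pool.Agent.helper21.WB.I2

open scoped ENNReal

/-- contribution of one element -/
noncomputable def gf (e0 : ℝ) (γ : GLI) (z : X) : ℝ≥0∞ :=
  if sm z γ < e0 then ENNReal.ofReal (nrm z (Yg γ) ^ (-(5 / 2) : ℝ)) else 0

open Classical in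
/-- the non unipotent part -/
noncomputable def fs (Γ : Subgroup GLI) (e0 : ℝ) (z : X) : ℝ≥0∞ :=
  ∑' γ : Γ, if ¬ Unip γ.1 then gf e0 γ.1 z else 0

open Classical in
/-- the unipotent part -/
noncomputable def fu (Γ : Subgroup GLI) (e0 : ℝ) (z : X) : ℝ≥0∞ :=
  ⨆ γ : Γ, if Unip γ.1 ∧ γ.1 ≠ 1 then gf e0 γ.1 z else 0

/-! ### The absorption argument -/

theorem absorb {Γ : Subgroup GLI} {F : Set X} (hL : Lat Γ F) {t c C : ℝ} (ht : 0 < t) (hc : 0 < c)
    (hc1 : c < 1) (_hC : 0 ≤ C) (f : X → ℝ≥0∞) (hf : Measurable f) (hfin : ∀ y, f y ≠ ∞)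
    (hinv : ∀ γ ∈ Γ, ∀ y, f (act γ y) = f y)
    (havg : ∀ y, ∫⁻ z in {z | hd y z ≤ t}, f z ∂μ ≤
      ENNReal.ofReal ((1 - c) * vb t) * f y + ENNReal.ofReal (C * vb t)) :
    ∫⁻ y in F, f y ∂μ ≤ ENNReal.ofReal (C / c) * μ F := by
  classical
  have hv := vb_pos ht
  have hFm : MeasurableSet F := hL.fd.1
  have hFfin : μ F < ∞ := hL.fin
  have hball : ∀ y, MeasurableSet {z | hd y z ≤ t} := fun y =>
    (isClosed_le (continuous_hd.comp (Continuous.prodMk_right y)) continuous_const).measurableSet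
  -- truncated statement
  have key : ∀ T : ℕ, ∫⁻ y in F ∩ {y | f y < T}, f y ∂μ ≤ ENNReal.ofReal (C / c) * μ F := by
    intro T
    set fT : X → ℝ≥0∞ := fun y => min (f y) T with hfT
    have hfTm : Measurable fT := hf.min measurable_const
    set k : X → X → ℝ≥0∞ := fun x y => if hd x y ≤ t then 1 else 0 with hk
    have hkm : Measurable (Function.uncurry k) := by
      apply Measurable.ite _ measurable_const measurable_const
      exact (isClosed_le continuous_hd continuous_const).measurableSet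
    have h1 := fd_kernel hL.toDisc hL.fd k hkm (fun x y => by simp [hk, hd_comm])
      (fun γ hγ x y => by simp [hk, hd_act (hL.inG γ hγ)]) fT hfTm
      (fun γ hγ y => by simp [hfT, hinv γ hγ y])
    have h2 : ∀ x (g : X → ℝ≥0∞), ∫⁻ y, k x y * g y ∂μ = ∫⁻ y in {z | hd x z ≤ t}, g y ∂μ := by
      intro x g
      rw [← lintegral_indicator (hball x)]
      refine lintegral_congr (fun y => ?_)
      by_cases h : hd x y ≤ t
      · simp [hk, Set.indicator, h]
      · simp [hk, Set.indicator, h]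
    have h3 : ∀ y, ∫⁻ x, k y x ∂μ = ENNReal.ofReal (vb t) := by
      intro y
      have := h2 y (fun _ => 1)
      simp only [mul_one] at this
      rw [this]
      simp [μ_hball]
    simp only [h2, h3] at h1
    -- the two regions
    set S : Set X := {y | f y < T} with hS
    have hSm : MeasurableSet S := measurableSet_lt hf measurable_const
    have e1 : ∫⁻ y in F, fT y * ENNReal.ofReal (vb t) ∂μ
        = ENNReal.ofReal (vb t) * (∫⁻ y in F ∩ S, f y ∂μ) +
          ENNReal.ofReal (vb t) * ∫⁻ y in F \ S, fT y ∂μ := by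
      rw [lintegral_mul_const _ hfTm, ← lintegral_inter_add_sdiff _ F hSm, mul_comm, mul_add]
      congr 2
      refine setLIntegral_congr_fun (hFm.inter hSm) (fun y hy => ?_)
      have : f y < T := hy.2
      simp [hfT, this.le]
    have e2 : ∫⁻ x in F, ∫⁻ y in {z | hd x z ≤ t}, fT y ∂μ ∂μ ≤
        (ENNReal.ofReal ((1 - c) * vb t) * (∫⁻ y in F ∩ S, f y ∂μ) + ENNReal.ofReal (C * vb t) * μ F)
          + ENNReal.ofReal (vb t) * ∫⁻ y in F \ S, fT y ∂μ := by
      rw [← lintegral_inter_add_sdiff _ F hSm]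
      refine add_le_add ?_ ?_
      · calc ∫⁻ x in F ∩ S, ∫⁻ y in {z | hd x z ≤ t}, fT y ∂μ ∂μ
            ≤ ∫⁻ x in F ∩ S, (ENNReal.ofReal ((1 - c) * vb t) * f x + ENNReal.ofReal (C * vb t)) ∂μ := by
              refine lintegral_mono (fun x => ?_)
              exact (lintegral_mono (fun y => min_le_left _ _)).trans (havg x)
          _ = ENNReal.ofReal ((1 - c) * vb t) * (∫⁻ x in F ∩ S, f x ∂μ)
              + ENNReal.ofReal (C * vb t) * μ (F ∩ S) := by
              rw [lintegral_add_right _ measurable_const, lintegral_const_mul _ hf]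
              simp
          _ ≤ _ := by
              gcongr
              exact Set.inter_subset_left
      · rw [← lintegral_const_mul _ hfTm]
        refine setLIntegral_mono (hfTm.const_mul _) (fun x hx => ?_)
        have hx2 : (T : ℝ≥0∞) ≤ f x := not_lt.1 hx.2
        have : fT x = T := by simp [hfT, hx2]
        rw [this]
        calc ∫⁻ y in {z | hd x z ≤ t}, fT y ∂μ ≤ ∫⁻ y in {z | hd x z ≤ t}, T ∂μ :=
              lintegral_mono (fun y => min_le_right _ _)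
          _ = ENNReal.ofReal (vb t) * T := by simp [μ_hball, mul_comm]
    rw [h1, e1] at e2
    have fin2 : ENNReal.ofReal (vb t) * ∫⁻ y in F \ S, fT y ∂μ ≠ ∞ := by
      refine ENNReal.mul_ne_top ENNReal.ofReal_ne_top (ne_of_lt ?_)
      calc ∫⁻ y in F \ S, fT y ∂μ ≤ ∫⁻ y in F \ S, T ∂μ := lintegral_mono (fun y => min_le_right _ _)
        _ = T * μ (F \ S) := by simp
        _ ≤ T * μ F := by gcongr; exact Set.sdiff_subset
        _ < ∞ := ENNReal.mul_lt_top (by simp) hFfin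
    have fin1 : ∫⁻ y in F ∩ S, f y ∂μ ≠ ∞ := by
      refine ne_of_lt ?_
      calc ∫⁻ y in F ∩ S, f y ∂μ ≤ ∫⁻ y in F ∩ S, T ∂μ :=
            setLIntegral_mono measurable_const (fun y hy => le_of_lt hy.2)
        _ = T * μ (F ∩ S) := by simp
        _ ≤ T * μ F := by gcongr; exact Set.inter_subset_left
        _ < ∞ := ENNReal.mul_lt_top (by simp) hFfin
    have e3 := (ENNReal.add_le_add_iff_right fin2).1 e2
    have e4 : ENNReal.ofReal (vb t) = ENNReal.ofReal ((1 - c) * vb t) + ENNReal.ofReal (c * vb t) := by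
      rw [← ENNReal.ofReal_add (by nlinarith) (by positivity)]
      congr 1; ring
    rw [e4, add_mul] at e3
    have fin3 : ENNReal.ofReal ((1 - c) * vb t) * (∫⁻ y in F ∩ S, f y ∂μ) ≠ ∞ :=
      ENNReal.mul_ne_top ENNReal.ofReal_ne_top fin1
    have e5 := (ENNReal.add_le_add_iff_left fin3).1 e3
    -- divide by `c * vb t`
    have hcv : 0 < c * vb t := by positivity
    calc ∫⁻ y in F ∩ S, f y ∂μ
        = ENNReal.ofReal (1 / (c * vb t)) * (ENNReal.ofReal (c * vb t) * ∫⁻ y in F ∩ S, f y ∂μ) := by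
          rw [← mul_assoc, ← ENNReal.ofReal_mul (by positivity)]
          rw [one_div, inv_mul_cancel₀ hcv.ne', ENNReal.ofReal_one, one_mul]
      _ ≤ ENNReal.ofReal (1 / (c * vb t)) * (ENNReal.ofReal (C * vb t) * μ F) := by gcongr
      _ = ENNReal.ofReal (C / c) * μ F := by
          rw [← mul_assoc, ← ENNReal.ofReal_mul (by positivity)]
          congr 2
          field_simp
  -- monotone convergence
  have hmono : Monotone (fun T : ℕ => fun y => ({y | f y < (T : ℝ≥0∞)} : Set X).indicator f y) := by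
    intro a b hab y
    refine Set.indicator_le_indicator_of_subset ?_ (fun _ => bot_le) y
    intro z hz
    have hz' : f z < (a : ℝ≥0∞) := hz
    have hab' : (a : ℝ≥0∞) ≤ b := by exact_mod_cast hab
    exact lt_of_lt_of_le hz' hab'
  have hsup : ∀ y, f y = ⨆ T : ℕ, ({y | f y < (T : ℝ≥0∞)} : Set X).indicator f y := by
    intro y
    refine le_antisymm ?_ (iSup_le fun T => Set.indicator_le_self' (fun _ _ => bot_le) y)
    obtain ⟨n, hn⟩ := ENNReal.exists_nat_gt (hfin y)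
    refine le_trans ?_ (le_iSup _ n)
    rw [Set.indicator_of_mem (show y ∈ {y | f y < (n : ℝ≥0∞)} from hn)]
  calc ∫⁻ y in F, f y ∂μ
      = ∫⁻ y in F, ⨆ T : ℕ, ({y | f y < (T : ℝ≥0∞)} : Set X).indicator f y ∂μ := by
        exact lintegral_congr hsup
    _ = ⨆ T : ℕ, ∫⁻ y in F, ({y | f y < (T : ℝ≥0∞)} : Set X).indicator f y ∂μ := by
        refine lintegral_iSup (fun T => hf.indicator (measurableSet_lt hf measurable_const)) hmono
    _ ≤ ENNReal.ofReal (C / c) * μ F := by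
        refine iSup_le fun T => ?_
        rw [lintegral_indicator (measurableSet_lt hf measurable_const), Measure.restrict_restrict
          (measurableSet_lt hf measurable_const), Set.inter_comm]
        exact key T

/-! ### Elementary facts on one element -/

theorem Yg_one : Yg 1 = 0 := by simp [Yg]

theorem nrm_Yg {η₁ : ℝ} (h0 : 0 < η₁)
    (h : ∀ (y : X) (γ δ : GLI), InG γ → InG δ → sm y γ ≤ η₁ → sm y δ ≤ η₁ →
      nrm y (γ.val - δ.val) ≤ 2 * nrm y (Yg γ - Yg δ) ∧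
      nrm y (Yg γ - Yg δ) ≤ 2 * nrm y (γ.val - δ.val)) {γ : GLI} (hγ : InG γ) {y : X}
    (hs : sm y γ ≤ η₁) : sm y γ ≤ 2 * nrm y (Yg γ) ∧ nrm y (Yg γ) ≤ 2 * sm y γ := by
  have := h y γ 1 hγ InG.one hs (by rw [(sm_eq_zero y 1).2 rfl]; exact h0.le)
  rw [Yg_one, sub_zero, Units.val_one] at this
  exact this

theorem sm_pos {γ : GLI} (h1 : γ ≠ 1) (y : X) : 0 < sm y γ :=
  lt_of_le_of_ne (nrm_nonneg _ _) (fun h => h1 ((sm_eq_zero y γ).1 h.symm))

theorem rpow_anti {a b : ℝ} (ha : 0 < a) (hab : a ≤ b) :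
    b ^ (-(5 / 2) : ℝ) ≤ a ^ (-(5 / 2) : ℝ) :=
  Real.rpow_le_rpow_of_nonpos ha hab (by norm_num)

theorem measurable_gf (e0 : ℝ) (γ : GLI) : Measurable (gf e0 γ) := by
  unfold gf
  refine Measurable.ite ?_ ?_ measurable_const
  · exact (isOpen_lt (continuous_nrm (γ.val - 1)) continuous_const).measurableSet
  · exact ((continuous_nrm (Yg γ)).measurable.pow_const _).ennreal_ofReal

theorem gf_conj {e0 : ℝ} {g γ : GLI} (hg : InG g) (z : X) :
    gf e0 (g * γ * g⁻¹) (act g z) = gf e0 γ z := by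
  unfold gf
  have h1 : Yg (g * γ * g⁻¹) = g.val * Yg γ * (g⁻¹ : GLI).val := by
    unfold Yg
    have h2 : (g * γ * g⁻¹)⁻¹ = g * γ⁻¹ * g⁻¹ := by group
    rw [h2]
    simp only [Units.val_mul]
    rw [Matrix.mul_smul, Matrix.smul_mul, Matrix.mul_sub, Matrix.sub_mul]
  rw [sm_conj hg, h1, nrm_conj hg]

theorem unip_conj {g γ : GLI} : Unip (g * γ * g⁻¹) ↔ Unip γ := by
  have h : (g * γ * g⁻¹ : GLI).val - 1 = g.val * (γ.val - 1) * (g⁻¹ : GLI).val := by
    rw [Matrix.mul_sub, Matrix.sub_mul, Matrix.mul_one, ← Units.val_mul g g⁻¹, mul_inv_cancel]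
    simp [Units.val_mul]
  have hgi : (g⁻¹ : GLI).val * g.val = 1 := by
    rw [← Units.val_mul, inv_mul_cancel, Units.val_one]
  have hgi' : g.val * (g⁻¹ : GLI).val = 1 := by
    rw [← Units.val_mul, mul_inv_cancel, Units.val_one]
  have h3 : (g.val * (γ.val - 1) * (g⁻¹ : GLI).val) ^ 3
      = g.val * (γ.val - 1) ^ 3 * (g⁻¹ : GLI).val := by
    calc (g.val * (γ.val - 1) * (g⁻¹ : GLI).val) ^ 3
        = g.val * (γ.val - 1) * ((g⁻¹ : GLI).val * g.val) * (γ.val - 1) *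
            ((g⁻¹ : GLI).val * g.val) * (γ.val - 1) * (g⁻¹ : GLI).val := by
          rw [pow_succ, pow_two]; simp only [Matrix.mul_assoc]
      _ = g.val * (γ.val - 1) ^ 3 * (g⁻¹ : GLI).val := by
          rw [hgi]; simp only [Matrix.mul_one, pow_succ, pow_zero, one_mul, Matrix.mul_assoc]
  unfold Unip
  rw [h, h3]
  constructor
  · intro h4
    calc (γ.val - 1) ^ 3 = (g⁻¹ : GLI).val * (g.val * (γ.val - 1) ^ 3 * (g⁻¹ : GLI).val) * g.val := by
          rw [Matrix.mul_assoc g.val, ← Matrix.mul_assoc _ g.val, hgi, Matrix.one_mul,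
            Matrix.mul_assoc, hgi, Matrix.mul_one]
      _ = 0 := by rw [h4]; simp
  · intro h4
    rw [h4]; simp

/-- the average of the contribution of one element -/
theorem gf_avg {t c η₁ e0 : ℝ} (ht : 0 < t) (h0 : 0 < η₁) (he0 : 0 < e0)
    (he : Real.exp (2 * t) * e0 ≤ η₁)
    (hY : ∀ (y : X) (γ δ : GLI), InG γ → InG δ → sm y γ ≤ η₁ → sm y δ ≤ η₁ →
      nrm y (γ.val - δ.val) ≤ 2 * nrm y (Yg γ - Yg δ) ∧
      nrm y (Yg γ - Yg δ) ≤ 2 * nrm y (γ.val - δ.val))
    (hmv : ∀ A : Mat, IsSo A → A ≠ 0 → ∀ y : X,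
      ∫⁻ z in {z | hd y z ≤ t}, ENNReal.ofReal (nrm z A ^ (-(5 / 2) : ℝ)) ∂μ ≤
      ENNReal.ofReal ((1 - c) * vb t * nrm y A ^ (-(5 / 2) : ℝ))) (hc1 : c < 1)
    {γ : GLI} (hγ : InG γ) (h1 : γ ≠ 1) (y : X) :
    ∫⁻ z in {z | hd y z ≤ t}, gf e0 γ z ∂μ ≤
      ENNReal.ofReal ((1 - c) * vb t) * gf e0 γ y +
        ENNReal.ofReal ((Real.exp (-(2 * t)) * e0 / 2) ^ (-(5 / 2) : ℝ) * vb t) *
        (if sm y γ ≤ Real.exp (2 * t) * e0 then 1 else 0) := by
  have hv := vb_pos ht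
  have hball : ∀ y, MeasurableSet {z | hd y z ≤ t} := fun y =>
    (isClosed_le (continuous_hd.comp (Continuous.prodMk_right y)) continuous_const).measurableSet
  have he1 : (1:ℝ) ≤ Real.exp (2 * t) := Real.one_le_exp (by positivity)
  have hsy := sm_pos h1 y
  by_cases hs : sm y γ < e0
  · have hs' : sm y γ ≤ η₁ := by nlinarith
    have hY0 : Yg γ ≠ 0 := by
      intro h
      have := (nrm_Yg h0 hY hγ hs').1
      rw [h, (nrm_eq_zero y 0).2 rfl] at this
      linarith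
    calc ∫⁻ z in {z | hd y z ≤ t}, gf e0 γ z ∂μ
        ≤ ∫⁻ z in {z | hd y z ≤ t}, ENNReal.ofReal (nrm z (Yg γ) ^ (-(5 / 2) : ℝ)) ∂μ := by
          refine lintegral_mono (fun z => ?_)
          unfold gf
          split_ifs
          · exact le_rfl
          · exact bot_le
      _ ≤ ENNReal.ofReal ((1 - c) * vb t * nrm y (Yg γ) ^ (-(5 / 2) : ℝ)) :=
          hmv _ (isSo_Yg hγ) hY0 y
      _ = ENNReal.ofReal ((1 - c) * vb t) * gf e0 γ y := by
          unfold gf
          rw [if_pos hs, ENNReal.ofReal_mul (by nlinarith)]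
      _ ≤ _ := le_self_add
  · refine le_trans ?_ le_add_self
    by_cases hs2 : sm y γ ≤ Real.exp (2 * t) * e0
    · rw [if_pos hs2, mul_one]
      calc ∫⁻ z in {z | hd y z ≤ t}, gf e0 γ z ∂μ
          ≤ ∫⁻ z in {z | hd y z ≤ t},
              ENNReal.ofReal ((Real.exp (-(2 * t)) * e0 / 2) ^ (-(5 / 2) : ℝ)) ∂μ := by
            refine setLIntegral_mono measurable_const (fun z hz => ?_)
            unfold gf
            split_ifs with h
            · refine ENNReal.ofReal_le_ofReal (rpow_anti (by positivity) ?_)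
              have hsz : sm z γ ≤ η₁ := by nlinarith
              have e1 := (nrm_Yg h0 hY hγ hsz).1
              have e2 := sm_lip z y γ
              have e3 : Real.exp (2 * hd z y) ≤ Real.exp (2 * t) := by
                rw [hd_comm]; exact Real.exp_le_exp.2 (by have : hd y z ≤ t := hz; linarith)
              have e4 : e0 ≤ Real.exp (2 * t) * sm z γ := by
                have : 0 ≤ sm z γ := nrm_nonneg _ _
                calc e0 ≤ sm y γ := not_lt.1 hs
                  _ ≤ Real.exp (2 * hd z y) * sm z γ := e2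
                  _ ≤ _ := by gcongr
              have e5 : Real.exp (-(2 * t)) * e0 ≤ sm z γ := by
                rw [Real.exp_neg, inv_mul_le_iff₀ (Real.exp_pos _)]
                exact e4
              linarith
            · exact bot_le
        _ = ENNReal.ofReal ((Real.exp (-(2 * t)) * e0 / 2) ^ (-(5 / 2) : ℝ) * vb t) := by
            rw [setLIntegral_const, μ_hball, ENNReal.ofReal_mul (by positivity)]
    · rw [if_neg hs2, mul_zero]
      refine le_of_eq ?_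
      rw [← setLIntegral_congr_fun (f := fun _ => 0) (hball y) (fun z hz => ?_)]
      · simp
      · have hz' : hd y z ≤ t := hz
        unfold gf
        rw [if_neg]
        intro h
        refine hs2 ?_
        calc sm y γ ≤ Real.exp (2 * hd z y) * sm z γ := sm_lip z y γ
          _ ≤ Real.exp (2 * t) * e0 := by
            have : 0 ≤ sm z γ := nrm_nonneg _ _
            rw [hd_comm]
            gcongr

/-! ### Sums over the group -/

theorem finite_sm {Γ : Subgroup GLI} (hΓ : Disc Γ) (y : X) (e : ℝ) :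
    {γ | γ ∈ Γ ∧ sm y γ ≤ e}.Finite := by
  refine (finite_near hΓ y 0 (Real.arcosh (1 + max e 0))).subset ?_
  rintro γ ⟨hγ, hs⟩
  refine ⟨hγ, y, by rw [hd_self], ?_⟩
  unfold hd
  have h1 := one_le_ch y (act γ y)
  have h2 := ch_le_of_sm (hΓ.inG γ hγ) y
  have h3 : ch y (act γ y) ≤ 1 + max e 0 := h2.trans (by have := le_max_left e 0; linarith)
  have h4 : (1:ℝ) ≤ 1 + max e 0 := by have := le_max_right e 0; linarith
  exact (Real.arcosh_le_arcosh (by linarith) (by linarith)).2 h3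

open Classical in
theorem measurable_fs {Γ : Subgroup GLI} (hΓ : Disc Γ) (e0 : ℝ) : Measurable (fs Γ e0) := by
  have : Countable Γ := countable_of_disc hΓ
  unfold fs
  refine Measurable.tsum (fun γ => ?_)
  by_cases h : Unip γ.1
  · simp [h]
  · simpa [h] using measurable_gf e0 γ.1

open Classical in
theorem measurable_fu {Γ : Subgroup GLI} (hΓ : Disc Γ) (e0 : ℝ) : Measurable (fu Γ e0) := by
  have : Countable Γ := countable_of_disc hΓ
  unfold fu
  refine Measurable.iSup (fun γ => ?_)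
  by_cases h : Unip γ.1 ∧ γ.1 ≠ 1
  · simp only [h, ne_eq, not_false_eq_true, and_self, ↓reduceIte]
    exact measurable_gf e0 γ.1
  · simp only [h, ↓reduceIte]
    exact measurable_const

/-- conjugation by an element of the group -/
def conjE (Γ : Subgroup GLI) (g : Γ) : Γ ≃ Γ := (MulAut.conj g).toEquiv

theorem conjE_val (Γ : Subgroup GLI) (g γ : Γ) : (conjE Γ g γ).1 = g.1 * γ.1 * g.1⁻¹ := rfl

theorem fs_act {Γ : Subgroup GLI} (hΓ : Disc Γ) (e0 : ℝ) {g : GLI} (hg : g ∈ Γ) (y : X) :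
    fs Γ e0 (act g y) = fs Γ e0 y := by
  classical
  unfold fs
  rw [← Equiv.tsum_eq (conjE Γ ⟨g, hg⟩)]
  refine tsum_congr (fun γ => ?_)
  rw [conjE_val, unip_conj, gf_conj (hΓ.inG g hg)]

theorem fu_act {Γ : Subgroup GLI} (hΓ : Disc Γ) (e0 : ℝ) {g : GLI} (hg : g ∈ Γ) (y : X) :
    fu Γ e0 (act g y) = fu Γ e0 y := by
  classical
  unfold fu
  rw [← Equiv.iSup_comp (conjE Γ ⟨g, hg⟩)]
  refine iSup_congr (fun γ => ?_)
  have h : g * γ.1 * g⁻¹ = 1 ↔ γ.1 = 1 := by
    constructor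
    · intro h
      have := congrArg (fun x => g⁻¹ * x * g) h
      simpa [mul_assoc] using this
    · intro h; simp [h]
  rw [conjE_val, unip_conj, gf_conj (hΓ.inG g hg)]
  simp only [ne_eq, h]

theorem gf_ne_top (e0 : ℝ) (γ : GLI) (z : X) : gf e0 γ z ≠ ∞ := by
  unfold gf; split_ifs
  · exact ENNReal.ofReal_ne_top
  · simp

theorem fs_ne_top {Γ : Subgroup GLI} (hΓ : Disc Γ) (e0 : ℝ) (z : X) : fs Γ e0 z ≠ ∞ := by
  classical
  unfold fs
  have hfin : {γ : Γ | sm z γ.1 ≤ e0}.Finite := by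
    refine Set.Finite.of_finite_image ((finite_sm hΓ z e0).subset ?_) Subtype.val_injective.injOn
    rintro _ ⟨γ, hγ, rfl⟩
    exact ⟨γ.2, hγ⟩
  rw [tsum_eq_sum (s := hfin.toFinset)]
  · refine ENNReal.sum_ne_top.2 (fun γ _ => ?_)
    by_cases hu : Unip γ.1
    · simp [hu]
    · simp only [hu, not_false_eq_true, ↓reduceIte]
      exact gf_ne_top _ _ _
  · intro γ hγ
    rw [Set.Finite.mem_toFinset] at hγ
    have : gf e0 γ.1 z = 0 := by
      unfold gf
      rw [if_neg (fun h => hγ h.le)]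
    simp [this]

theorem fu_ne_top {Γ : Subgroup GLI} (hΓ : Disc Γ) (e0 : ℝ) (z : X) : fu Γ e0 z ≠ ∞ := by
  classical
  unfold fu
  have hfin : {γ : Γ | sm z γ.1 ≤ e0}.Finite := by
    refine Set.Finite.of_finite_image ((finite_sm hΓ z e0).subset ?_) Subtype.val_injective.injOn
    rintro _ ⟨γ, hγ, rfl⟩
    exact ⟨γ.2, hγ⟩
  refine ne_of_lt (lt_of_le_of_lt (b := ∑ γ ∈ hfin.toFinset, gf e0 γ.1 z) ?_ ?_)
  · refine iSup_le (fun γ => ?_)
    split_ifs with h
    · by_cases hs : sm z γ.1 < e0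
      · exact Finset.single_le_sum (f := fun γ : Γ => gf e0 γ.1 z) (fun _ _ => bot_le)
          ((Set.Finite.mem_toFinset _).2 hs.le)
      · unfold gf
        rw [if_neg hs]; exact bot_le
    · exact bot_le
  · exact lt_top_iff_ne_top.2 (ENNReal.sum_ne_top.2 (fun γ _ => gf_ne_top _ _ _))

/-- the parameters and what is known about them -/
structure Par (t c η₁ e0 : ℝ) : Prop where
  ht : 0 < t
  hc : 0 < c
  hc1 : c < 1
  h0 : 0 < η₁
  he0 : 0 < e0
  he01 : e0 ≤ 1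
  he : Real.exp (2 * t) * e0 ≤ η₁
  hY : ∀ (y : X) (γ δ : GLI), InG γ → InG δ → sm y γ ≤ η₁ → sm y δ ≤ η₁ →
      nrm y (γ.val - δ.val) ≤ 2 * nrm y (Yg γ - Yg δ) ∧
      nrm y (Yg γ - Yg δ) ≤ 2 * nrm y (γ.val - δ.val)
  hmv : ∀ A : Mat, IsSo A → A ≠ 0 → ∀ y : X,
      ∫⁻ z in {z | hd y z ≤ t}, ENNReal.ofReal (nrm z A ^ (-(5 / 2) : ℝ)) ∂μ ≤
      ENNReal.ofReal ((1 - c) * vb t * nrm y A ^ (-(5 / 2) : ℝ))
  hz : ∀ (Γ : Subgroup GLI), Disc Γ → ∀ (y : X),
    ∀ γ ∈ Γ, ∀ δ ∈ Γ, sm y γ ≤ η₁ → sm y δ ≤ η₁ → γ * δ = δ * γ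
  hw : ∀ (y : X) (γ : GLI), InG γ → sm y γ ≤ η₁ → Unip γ → γ ≠ 1 →
    ∃ ξ w : I → ℝ, NullF ξ ∧ bl ξ w = 0 ∧ 0 < bl w w ∧ Yg γ = wedge ξ w

variable {t c η₁ e0 : ℝ}

/-- the constant for the elements between `e0` and `e^{2t} e0` -/
noncomputable def C1 (t e0 : ℝ) : ℝ := (Real.exp (-(2 * t)) * e0 / 2) ^ (-(5 / 2) : ℝ)

open Classical in
theorem fs_avg (hp : Par t c η₁ e0) {Γ : Subgroup GLI} (hΓ : Disc Γ) (y : X) :
    ∫⁻ z in {z | hd y z ≤ t}, fs Γ e0 z ∂μ ≤
      ENNReal.ofReal ((1 - c) * vb t) * fs Γ e0 y +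
        ENNReal.ofReal (C1 t e0 * vb t) *
        ∑' γ : Γ, (if ¬ Unip γ.1 ∧ sm y γ.1 ≤ Real.exp (2 * t) * e0 then (1 : ℝ≥0∞) else 0) := by
  have : Countable Γ := countable_of_disc hΓ
  unfold fs
  rw [lintegral_tsum (fun γ => ?_), ← ENNReal.tsum_mul_left, ← ENNReal.tsum_mul_left,
    ← ENNReal.tsum_add]
  · refine ENNReal.tsum_le_tsum (fun γ => ?_)
    by_cases hu : Unip γ.1
    · simp [hu]
    · simp only [hu, not_false_eq_true, ↓reduceIte, true_and]
      refine gf_avg hp.ht hp.h0 hp.he0 hp.he hp.hY hp.hmv hp.hc1 (hΓ.inG _ γ.2) ?_ y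
      intro h
      apply hu
      rw [h]; simp [Unip]
  · by_cases h : Unip γ.1
    · simp [h]
    · simp only [h, not_false_eq_true, ↓reduceIte]
      exact (measurable_gf e0 γ.1).aemeasurable

/-! ### Unipotent elements -/

theorem bl_null_neg {ξ : I → ℝ} (h : NullF ξ) (y : X) : bl ξ (lift y) < 0 := by
  rw [bl_comm]
  exact bl_neg (by rw [bl_lift]; norm_num) (by linarith [lift_o_pos y]) (by rw [h.1]) h.2

theorem nrm_wedge {ξ w : I → ℝ} (h : NullF ξ) (h2 : bl ξ w = 0) (hso : IsSo (wedge ξ w)) (z : X) :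
    nrm z (wedge ξ w) ^ 2 = 4 * (bl ξ (lift z)) ^ 2 * bl w w := by
  rw [nrm_sq_of_so hso, wedge_mulVec]
  have e1 : w ⬝ᵥ (J *ᵥ ξ) = 0 := by
    have : bl w ξ = 0 := by rw [bl_comm]; exact h2
    exact this
  have e2 : ξ ⬝ᵥ (J *ᵥ ξ) = 0 := h.1
  have e1' : (J *ᵥ ξ) ⬝ᵥ w = 0 := by rw [dotProduct_comm]; exact e1
  have e2' : (J *ᵥ ξ) ⬝ᵥ ξ = 0 := by rw [dotProduct_comm]; exact e2
  have e3 : ξ ⬝ᵥ (J *ᵥ w) = 0 := h2
  have e3' : (J *ᵥ w) ⬝ᵥ ξ = 0 := by rw [dotProduct_comm]; exact e3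
  have htr : Matrix.trace (wedge ξ w * wedge ξ w) = 0 := by
    unfold wedge
    rw [Matrix.sub_mul, Matrix.mul_sub, Matrix.mul_sub]
    simp only [Matrix.vecMulVec_mul_vecMulVec, Matrix.trace_sub,
      Matrix.trace_vecMulVec, e1', e2', e3', zero_smul, sub_zero, dotProduct_zero]
    simp [e2]
  rw [htr]
  simp only [bl_sub_left, bl_sub_right, bl_smul_left, bl_smul_right]
  rw [bl_comm w ξ, h2, h.1]
  ring

theorem le_of_sq_le_sq' {a b : ℝ} (h : a ^ 2 ≤ b ^ 2) (hb : 0 ≤ b) : a ≤ b := by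
  exact (le_abs_self a).trans (abs_le_of_sq_le_sq h hb)

theorem Yg_commute {γ δ : GLI} (h : γ * δ = δ * γ) : Yg γ * Yg δ = Yg δ * Yg γ := by
  have hc : Commute γ δ := h
  have c1 : Commute γ.val δ.val := congrArg Units.val h
  have c2 : Commute γ.val (δ⁻¹ : GLI).val := congrArg Units.val hc.inv_right
  have c3 : Commute (γ⁻¹ : GLI).val δ.val := congrArg Units.val hc.inv_left
  have c4 : Commute (γ⁻¹ : GLI).val (δ⁻¹ : GLI).val := congrArg Units.val hc.inv_inv
  unfold Yg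
  have : Commute (γ.val - (γ⁻¹ : GLI).val) (δ.val - (δ⁻¹ : GLI).val) :=
    (c1.sub_right c2).sub_left (c3.sub_right c4)
  exact (this.smul_left _).smul_right _

theorem unip_compare (hp : Par t c η₁ e0) {Γ : Subgroup GLI} (hΓ : Disc Γ) {y : X} {γ δ : GLI}
    (hγ : γ ∈ Γ) (hδ : δ ∈ Γ) (hγs : sm y γ ≤ η₁) (hδs : sm y δ ≤ η₁) (hγu : Unip γ) (hδu : Unip δ)
    (hγ1 : γ ≠ 1) (hδ1 : δ ≠ 1) (hle : nrm y (Yg γ) ≤ nrm y (Yg δ)) (z : X) :
    nrm z (Yg γ) ≤ nrm z (Yg δ) := by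
  obtain ⟨ξ, w, h1, h2, h3, h4⟩ := hp.hw y γ (hΓ.inG γ hγ) hγs hγu hγ1
  obtain ⟨ξ', w', h1', h2', h3', h4'⟩ := hp.hw y δ (hΓ.inG δ hδ) hδs hδu hδ1
  have hcom := Yg_commute (hp.hz Γ hΓ y γ hγ δ hδ hγs hδs)
  have hso : IsSo (wedge ξ w) := h4 ▸ isSo_Yg (hΓ.inG γ hγ)
  have hso' : IsSo (wedge ξ' w') := h4' ▸ isSo_Yg (hΓ.inG δ hδ)
  rw [h4, h4'] at hcom
  obtain ⟨k, hk, rfl⟩ := wedge_commute h1 h2 h3 h1' h2' h3' hcom
  have hn := fun z => nrm_wedge h1 h2 hso z
  have hn' := fun z => nrm_wedge h1' h2' hso' z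
  rw [h4, h4'] at hle ⊢
  have e1 : nrm y (wedge ξ w) ^ 2 ≤ nrm y (wedge (k • ξ) w') ^ 2 :=
    pow_le_pow_left₀ (nrm_nonneg _ _) hle 2
  rw [hn, hn', bl_smul_left] at e1
  have hb := bl_null_neg h1 y
  have e2 : bl w w ≤ k ^ 2 * bl w' w' := by
    have hb2 : 0 < (bl ξ (lift y)) ^ 2 := by nlinarith
    have : (bl ξ (lift y)) ^ 2 * bl w w ≤ (bl ξ (lift y)) ^ 2 * (k ^ 2 * bl w' w') := by nlinarith
    exact le_of_mul_le_mul_left this hb2
  refine le_of_sq_le_sq' ?_ (nrm_nonneg _ _)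
  rw [hn, hn', bl_smul_left]
  nlinarith [sq_nonneg (bl ξ (lift z))]

open Classical in
theorem fu_avg (hp : Par t c η₁ e0) {Γ : Subgroup GLI} (hΓ : Disc Γ) (y : X) :
    ∫⁻ z in {z | hd y z ≤ t}, fu Γ e0 z ∂μ ≤
      ENNReal.ofReal ((1 - c) * vb t) * fu Γ e0 y + ENNReal.ofReal (C1 t e0 * vb t) := by
  have hball : ∀ y, MeasurableSet {z | hd y z ≤ t} := fun y =>
    (isClosed_le (continuous_hd.comp (Continuous.prodMk_right y)) continuous_const).measurableSet
  have ht := hp.ht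
  have he0 := hp.he0
  have hv := vb_pos ht
  have hc1 := hp.hc1
  have hc0 := hp.hc
  have he1 : (1:ℝ) ≤ Real.exp (2 * t) := Real.one_le_exp (by positivity)
  -- small at `z` implies small at `y`
  have htr : ∀ (γ : GLI) (z : X), hd y z ≤ t → sm z γ < e0 → sm y γ ≤ Real.exp (2 * t) * e0 := by
    intro γ z hz h
    calc sm y γ ≤ Real.exp (2 * hd z y) * sm z γ := sm_lip z y γ
      _ ≤ Real.exp (2 * t) * e0 := by
        have : 0 ≤ sm z γ := nrm_nonneg _ _
        rw [hd_comm]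
        gcongr
  set U : Set GLI := {γ | γ ∈ Γ ∧ sm y γ ≤ Real.exp (2 * t) * e0 ∧ Unip γ ∧ γ ≠ 1} with hU
  have hUfin : U.Finite := (finite_sm hΓ y (Real.exp (2 * t) * e0)).subset
    (fun γ h => ⟨h.1, h.2.1⟩)
  rcases U.eq_empty_or_nonempty with hUe | hUne
  · refine le_trans (le_of_eq ?_) bot_le
    rw [← setLIntegral_congr_fun (f := fun _ => 0) (hball y) (fun z hz => ?_)]
    · simp
    · symm
      unfold fu
      rw [ENNReal.iSup_eq_zero]
      intro γ
      split_ifs with h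
      · unfold gf
        rw [if_neg]
        intro h2
        have : γ.1 ∈ U := ⟨γ.2, htr _ z hz h2, h.1, h.2⟩
        rw [hUe] at this
        exact this
      · rfl
  · obtain ⟨δ, hδU, hδmin⟩ := Set.exists_min_image U (fun γ => nrm y (Yg γ)) hUfin hUne
    obtain ⟨hδΓ, hδs, hδu, hδ1⟩ := hδU
    have hδs' : sm y δ ≤ η₁ := hδs.trans hp.he
    have hδG := hΓ.inG δ hδΓ
    have hYδ := nrm_Yg hp.h0 hp.hY hδG hδs'
    have hYpos : 0 < nrm y (Yg δ) := by
      have := sm_pos hδ1 y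
      linarith [hYδ.1]
    have hYne : Yg δ ≠ 0 := by
      intro h
      rw [h, (nrm_eq_zero y 0).2 rfl] at hYpos
      exact lt_irrefl _ hYpos
    calc ∫⁻ z in {z | hd y z ≤ t}, fu Γ e0 z ∂μ
        ≤ ∫⁻ z in {z | hd y z ≤ t}, ENNReal.ofReal (nrm z (Yg δ) ^ (-(5 / 2) : ℝ)) ∂μ := by
          refine setLIntegral_mono' (hball y) (fun z hz => ?_)
          unfold fu
          refine iSup_le (fun γ => ?_)
          split_ifs with h
          · unfold gf
            split_ifs with h2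
            · have hγU : γ.1 ∈ U := ⟨γ.2, htr _ z hz h2, h.1, h.2⟩
              have hle := hδmin γ.1 hγU
              have hcmp := unip_compare hp hΓ hδΓ γ.2 hδs' (hγU.2.1.trans hp.he) hδu h.1 hδ1 h.2
                hle z
              refine ENNReal.ofReal_le_ofReal (rpow_anti ?_ hcmp)
              refine lt_of_le_of_ne (nrm_nonneg _ _) (fun h => hYne ((nrm_eq_zero z _).1 h.symm))
            · exact bot_le
          · exact bot_le
      _ ≤ ENNReal.ofReal ((1 - c) * vb t * nrm y (Yg δ) ^ (-(5 / 2) : ℝ)) :=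
          hp.hmv _ (isSo_Yg hδG) hYne y
      _ ≤ _ := by
          by_cases hs : sm y δ < e0
          · refine le_trans ?_ le_self_add
            rw [ENNReal.ofReal_mul (by nlinarith)]
            gcongr
            unfold fu
            refine le_trans ?_ (le_iSup _ (⟨δ, hδΓ⟩ : Γ))
            simp only [hδu, hδ1, ne_eq, not_false_eq_true, and_self, ↓reduceIte]
            unfold gf
            rw [if_pos hs]
          · refine le_trans (ENNReal.ofReal_le_ofReal ?_) le_add_self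
            have h5 : nrm y (Yg δ) ^ (-(5 / 2) : ℝ) ≤ C1 t e0 := by
              unfold C1
              refine rpow_anti (by positivity) ?_
              have h6 : Real.exp (-(2 * t)) ≤ 1 := Real.exp_le_one_iff.2 (by linarith)
              have h7 : e0 ≤ sm y δ := not_lt.1 hs
              nlinarith [hYδ.1]
            have h8 : 0 ≤ nrm y (Yg δ) ^ (-(5 / 2) : ℝ) := by positivity
            have h9 : 0 ≤ vb t * nrm y (Yg δ) ^ (-(5 / 2) : ℝ) := by positivity
            nlinarith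

/-! ### Comparison with `sinf` and counting -/

theorem sinf_rpow_le (hp : Par t c η₁ e0) {Γ : Subgroup GLI} (hΓ : Disc Γ) (y : X) :
    ENNReal.ofReal (sinf Γ y ^ (-(5 / 2) : ℝ)) ≤
      32 * (fs Γ e0 y + fu Γ e0 y) + ENNReal.ofReal (e0 ^ (-(5 / 2) : ℝ)) := by
  classical
  have ht := hp.ht
  have he0 := hp.he0
  have he1 : (1:ℝ) ≤ Real.exp (2 * t) := Real.one_le_exp (by positivity)
  have hs0 := sinf_pos hΓ y
  by_cases hs : sinf Γ y < e0
  · refine le_trans ?_ le_self_add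
    have hlt : sInf (insert 1 {s : ℝ | ∃ γ ∈ Γ, γ ≠ 1 ∧ s = sm y γ}) < min e0 (2 * sinf Γ y) := by
      have : sinf Γ y < min e0 (2 * sinf Γ y) := lt_min hs (by linarith)
      exact this
    obtain ⟨s, hsm, hs2⟩ := exists_lt_of_csInf_lt (Set.insert_nonempty _ _) hlt
    have hs3 : s < e0 := lt_of_lt_of_le hs2 (min_le_left _ _)
    have hs4 : s < 2 * sinf Γ y := lt_of_lt_of_le hs2 (min_le_right _ _)
    rcases hsm with rfl | ⟨γ, hγ, h1, rfl⟩
    · exfalso; linarith [hp.he01]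
    · have hγG := hΓ.inG γ hγ
      have hY := nrm_Yg hp.h0 hp.hY hγG (y := y) (by have := hp.he; nlinarith)
      have hpos : 0 < nrm y (Yg γ) := by
        have := sm_pos h1 y
        linarith [hY.1]
      have hgf : gf e0 γ y ≤ fs Γ e0 y + fu Γ e0 y := by
        by_cases hu : Unip γ
        · refine le_trans ?_ le_add_self
          unfold fu
          refine le_trans ?_ (le_iSup _ (⟨γ, hγ⟩ : Γ))
          simp only [hu, h1, ne_eq, not_false_eq_true, and_self, ↓reduceIte, le_refl]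
        · refine le_trans ?_ le_self_add
          unfold fs
          refine le_trans ?_ (ENNReal.le_tsum (⟨γ, hγ⟩ : Γ))
          simp only [hu, not_false_eq_true, ↓reduceIte, le_refl]
      have hle : nrm y (Yg γ) ≤ 4 * sinf Γ y := by linarith [hY.2]
      have h32 : (4:ℝ) ^ (-(5 / 2) : ℝ) = 1 / 32 := by
        rw [Real.rpow_neg (by norm_num)]
        have : (4:ℝ) ^ ((5 / 2) : ℝ) = 32 := by
          have e : (4:ℝ) = 2 ^ (2:ℝ) := by norm_num
          rw [e, ← Real.rpow_mul (by norm_num)]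
          norm_num
        rw [this]; norm_num
      have h6 : sinf Γ y ^ (-(5 / 2) : ℝ) ≤ 32 * nrm y (Yg γ) ^ (-(5 / 2) : ℝ) := by
        have h7 := rpow_anti hpos hle
        rw [Real.mul_rpow (by norm_num) hs0.le, h32] at h7
        linarith
      calc ENNReal.ofReal (sinf Γ y ^ (-(5 / 2) : ℝ))
          ≤ ENNReal.ofReal (32 * nrm y (Yg γ) ^ (-(5 / 2) : ℝ)) := ENNReal.ofReal_le_ofReal h6
        _ = 32 * gf e0 γ y := by
            unfold gf
            rw [if_pos hs3, ENNReal.ofReal_mul (by norm_num)]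
            norm_num
        _ ≤ 32 * (fs Γ e0 y + fu Γ e0 y) := by gcongr
  · refine le_trans (ENNReal.ofReal_le_ofReal ?_) le_add_self
    exact rpow_anti he0 (not_lt.1 hs)

open Classical in
theorem count_N {η₂ Cc e1 : ℝ} (he1 : e1 ≤ η₂) (_hCc : 0 < Cc)
    (hcs : ∀ (Γ : Subgroup GLI), Disc Γ → ∀ (y : X) (s : ℝ), 0 < s → s ≤ 1 →
    (∀ γ ∈ Γ, γ ≠ 1 → s ≤ sm y γ) →
    (∃ γ ∈ Γ, sm y γ ≤ η₂ ∧ ¬ Unip γ) → ({γ | γ ∈ Γ ∧ sm y γ ≤ η₂}.ncard : ℝ) ≤ Cc / s ^ 2)
    {Γ : Subgroup GLI} (hΓ : Disc Γ) (y : X) :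
    ∑' γ : Γ, (if ¬ Unip γ.1 ∧ sm y γ.1 ≤ e1 then (1 : ℝ≥0∞) else 0) ≤
      ENNReal.ofReal (Cc / sinf Γ y ^ 2) := by
  set S : Set Γ := {γ | ¬ Unip γ.1 ∧ sm y γ.1 ≤ e1} with hS
  have e : ∑' γ : Γ, (if ¬ Unip γ.1 ∧ sm y γ.1 ≤ e1 then (1 : ℝ≥0∞) else 0) = S.encard := by
    rw [← ENNReal.tsum_set_one, tsum_subtype S (fun _ => (1 : ℝ≥0∞))]
    refine tsum_congr (fun γ => ?_)
    by_cases h : ¬ Unip γ.1 ∧ sm y γ.1 ≤ e1
    · rw [if_pos h, Set.indicator_of_mem (show γ ∈ S from h)]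
    · rw [if_neg h, Set.indicator_of_notMem (show γ ∉ S from h)]
  rw [e]
  rcases S.eq_empty_or_nonempty with h | ⟨γ, hγ⟩
  · rw [h]; simp
  · set T : Set GLI := {γ | γ ∈ Γ ∧ sm y γ ≤ η₂} with hT
    have hTfin : T.Finite := finite_sm hΓ y η₂
    have h1 : S.encard ≤ T.encard := by
      rw [← Subtype.val_injective.encard_image S]
      refine Set.encard_le_encard ?_
      rintro _ ⟨δ, hδ, rfl⟩
      exact ⟨δ.2, hδ.2.trans he1⟩
    have h2 := hcs Γ hΓ y (sinf Γ y) (sinf_pos hΓ y) (sinf_le_one y) (fun γ hγ h1 => sinf_le hγ h1)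
      ⟨γ.1, γ.2, hγ.2.trans he1, hγ.1⟩
    calc (S.encard : ℝ≥0∞) ≤ (T.encard : ℝ≥0∞) := by exact_mod_cast h1
      _ = ((T.ncard : ℕ) : ℝ≥0∞) := by rw [← hTfin.cast_ncard_eq]; rfl
      _ = ENNReal.ofReal (T.ncard : ℝ) := by simp
      _ ≤ _ := ENNReal.ofReal_le_ofReal h2

theorem real_absorb {s Cc ε : ℝ} (hs : 0 < s) (hCc : 0 < Cc) (hε : 0 < ε) :
    Cc / s ^ 2 ≤ ε * s ^ (-(5 / 2) : ℝ) + Cc * (Cc / ε) ^ 4 := by
  set x := Real.sqrt s with hx
  have hx0 : 0 < x := Real.sqrt_pos.2 hs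
  have hsx : s = x ^ 2 := (Real.sq_sqrt hs.le).symm
  have h1 : s ^ (-(5 / 2) : ℝ) = (1 / x) ^ 5 := by
    rw [hsx, ← Real.rpow_natCast x 2, ← Real.rpow_mul hx0.le]
    rw [one_div, inv_pow, ← Real.rpow_natCast x 5, ← Real.rpow_neg hx0.le]
    norm_num
  have h2 : Cc / s ^ 2 = Cc * (1 / x) ^ 4 := by
    rw [hsx]; field_simp
  rw [h1, h2]
  set h := 1 / x with hh
  have hh0 : 0 < h := by positivity
  by_cases hc : Cc / ε ≤ h
  · have h3 : Cc ≤ ε * h := by rw [div_le_iff₀ hε] at hc; linarith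
    have h4 : Cc * h ^ 4 ≤ (ε * h) * h ^ 4 := by gcongr
    have h5 : 0 ≤ Cc * (Cc / ε) ^ 4 := by positivity
    nlinarith
  · have h3 : h ≤ Cc / ε := (not_le.1 hc).le
    have h4 : Cc * h ^ 4 ≤ Cc * (Cc / ε) ^ 4 := by gcongr
    have h5 : 0 ≤ ε * h ^ 5 := by positivity
    linarith

end Pool.Agent.helper21.WB.I2

namespace Pool.Agent.helper21.WB

open I2 ENNReal in
/-- [I2] For every lattice `∫_M s^(-5/2) ≤ C vol(M)`. -/
theorem margulis' : ∃ C : ℝ, 0 < C ∧ ∀ (Γ : Subgroup GLI) (F : Set X), Lat Γ F →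
    ∫⁻ y in F, ENNReal.ofReal (sinf Γ y ^ (-(5 / 2) : ℝ)) ∂μ ≤ ENNReal.ofReal C * μ F := by
  classical
  obtain ⟨t, c, ht, ht1, hc, hc1, hmv⟩ := mean_value
  obtain ⟨ηz, hz0, hz⟩ := zassenhaus
  obtain ⟨ηY, hY0, hY⟩ := Yg_close
  obtain ⟨ηw, hw0, hw⟩ := wedge_of_unip
  obtain ⟨ηc, Cc, hηc, hCc, hcs⟩ := count_small'
  set η₁ := min ηz (min ηY (min ηw ηc)) with hη₁
  have hη₁0 : 0 < η₁ := lt_min hz0 (lt_min hY0 (lt_min hw0 hηc))
  have hle1 : η₁ ≤ ηz := min_le_left _ _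
  have hle2 : η₁ ≤ ηY := (min_le_right _ _).trans (min_le_left _ _)
  have hle3 : η₁ ≤ ηw := ((min_le_right _ _).trans (min_le_right _ _)).trans (min_le_left _ _)
  have hle4 : η₁ ≤ ηc := ((min_le_right _ _).trans (min_le_right _ _)).trans (min_le_right _ _)
  set e0 := min 1 (Real.exp (-(2 * t)) * η₁) with he0
  have he00 : 0 < e0 := lt_min one_pos (by positivity)
  have hee : Real.exp (2 * t) * e0 ≤ η₁ := by
    calc Real.exp (2 * t) * e0 ≤ Real.exp (2 * t) * (Real.exp (-(2 * t)) * η₁) := by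
          gcongr; exact min_le_right _ _
      _ = η₁ := by rw [← mul_assoc, ← Real.exp_add]; simp
  have hp : Par t c η₁ e0 :=
    { ht := ht, hc := hc, hc1 := hc1, h0 := hη₁0, he0 := he00, he01 := min_le_left _ _, he := hee
      hY := fun y γ δ h1 h2 h3 h4 => hY y γ δ h1 h2 (h3.trans hle2) (h4.trans hle2)
      hmv := hmv
      hz := fun Γ hΓ y γ hγ δ hδ h1 h2 => hz Γ hΓ y γ hγ δ hδ (h1.trans hle1) (h2.trans hle1)
      hw := fun y γ h1 h2 h3 h4 => hw y γ h1 (h2.trans hle3) h3 h4 }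
  have hv := vb_pos ht
  have hC1 : 0 < C1 t e0 := by unfold C1; positivity
  set ε := c / (64 * C1 t e0) with hε
  have hε0 : 0 < ε := by positivity
  set E := e0 ^ (-(5 / 2) : ℝ) with hE
  have hE0 : 0 < E := by positivity
  set K := Cc * (Cc / ε) ^ 4 with hK
  have hK0 : 0 < K := by positivity
  set C' := C1 t e0 * (ε * E + K + 1) with hC'
  have hC'0 : 0 < C' := by positivity
  refine ⟨32 * (C' / (c / 2)) + E, by positivity, ?_⟩
  intro Γ F hL
  have hΓ := hL.toDisc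
  set f : X → ℝ≥0∞ := fun y => fs Γ e0 y + fu Γ e0 y with hf
  have hfm : Measurable f := (measurable_fs hΓ e0).add (measurable_fu hΓ e0)
  have hffin : ∀ y, f y ≠ ∞ := fun y =>
    ENNReal.add_ne_top.2 ⟨fs_ne_top hΓ e0 y, fu_ne_top hΓ e0 y⟩
  have hfinv : ∀ γ ∈ Γ, ∀ y, f (act γ y) = f y := fun γ hγ y => by
    simp only [hf, fs_act hΓ e0 hγ, fu_act hΓ e0 hγ]
  have havg : ∀ y, ∫⁻ z in {z | hd y z ≤ t}, f z ∂μ ≤
      ENNReal.ofReal ((1 - c / 2) * vb t) * f y + ENNReal.ofReal (C' * vb t) := by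
    intro y
    have h1 := fs_avg hp hΓ y
    have h2 := fu_avg hp hΓ y
    have h3 := count_N (e1 := Real.exp (2 * t) * e0) (hee.trans hle4) hCc hcs hΓ y
    have hs0 := sinf_pos hΓ y
    have h4 : ENNReal.ofReal (Cc / sinf Γ y ^ 2) ≤
        ENNReal.ofReal ε * (32 * f y + ENNReal.ofReal E) + ENNReal.ofReal K := by
      calc ENNReal.ofReal (Cc / sinf Γ y ^ 2)
          ≤ ENNReal.ofReal (ε * sinf Γ y ^ (-(5 / 2) : ℝ) + K) :=
            ENNReal.ofReal_le_ofReal (real_absorb hs0 hCc hε0)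
        _ = ENNReal.ofReal ε * ENNReal.ofReal (sinf Γ y ^ (-(5 / 2) : ℝ)) + ENNReal.ofReal K := by
            rw [ENNReal.ofReal_add (by positivity) hK0.le, ENNReal.ofReal_mul hε0.le]
        _ ≤ _ := by
            gcongr
            exact sinf_rpow_le hp hΓ y
    calc ∫⁻ z in {z | hd y z ≤ t}, f z ∂μ
        = ∫⁻ z in {z | hd y z ≤ t}, fs Γ e0 z ∂μ + ∫⁻ z in {z | hd y z ≤ t}, fu Γ e0 z ∂μ := by
          rw [← lintegral_add_left (measurable_fs hΓ e0)]
      _ ≤ (ENNReal.ofReal ((1 - c) * vb t) * fs Γ e0 y + ENNReal.ofReal (C1 t e0 * vb t) *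
            (ENNReal.ofReal ε * (32 * f y + ENNReal.ofReal E) + ENNReal.ofReal K)) +
          (ENNReal.ofReal ((1 - c) * vb t) * fu Γ e0 y + ENNReal.ofReal (C1 t e0 * vb t)) := by
          refine add_le_add (h1.trans ?_) h2
          gcongr
          exact h3.trans h4
      _ = (ENNReal.ofReal ((1 - c) * vb t) + ENNReal.ofReal (C1 t e0 * vb t) *
            (ENNReal.ofReal ε * 32)) * f y +
          ENNReal.ofReal (C1 t e0 * vb t) *
            (ENNReal.ofReal ε * ENNReal.ofReal E + ENNReal.ofReal K + 1) := by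
          simp only [hf]
          ring
      _ = ENNReal.ofReal ((1 - c / 2) * vb t) * f y + ENNReal.ofReal (C' * vb t) := by
          have e1 : ENNReal.ofReal ((1 - c) * vb t) + ENNReal.ofReal (C1 t e0 * vb t) *
            (ENNReal.ofReal ε * 32) = ENNReal.ofReal ((1 - c / 2) * vb t) := by
            have : (32 : ℝ≥0∞) = ENNReal.ofReal 32 := by norm_num
            rw [this, ← ENNReal.ofReal_mul hε0.le, ← ENNReal.ofReal_mul (by positivity),
              ← ENNReal.ofReal_add (by nlinarith) (by positivity)]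
            congr 1
            rw [hε]; field_simp; ring
          have e2 : ENNReal.ofReal (C1 t e0 * vb t) *
            (ENNReal.ofReal ε * ENNReal.ofReal E + ENNReal.ofReal K + 1)
            = ENNReal.ofReal (C' * vb t) := by
            rw [← ENNReal.ofReal_one, ← ENNReal.ofReal_mul hε0.le, ← ENNReal.ofReal_add (by positivity)
              hK0.le, ← ENNReal.ofReal_add (by positivity) zero_le_one,
              ← ENNReal.ofReal_mul (by positivity)]
            congr 1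
            rw [hC']; ring
          rw [e1, e2]
  have hmain := absorb hL ht (c := c / 2) (by positivity) (by linarith) hC'0.le f hfm hffin hfinv havg
  calc ∫⁻ y in F, ENNReal.ofReal (sinf Γ y ^ (-(5 / 2) : ℝ)) ∂μ
      ≤ ∫⁻ y in F, (32 * f y + ENNReal.ofReal E) ∂μ := lintegral_mono (fun y => sinf_rpow_le hp hΓ y)
    _ = 32 * (∫⁻ y in F, f y ∂μ) + ENNReal.ofReal E * μ F := by
        rw [lintegral_add_right _ measurable_const, lintegral_const_mul _ hfm]
        simp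
    _ ≤ 32 * (ENNReal.ofReal (C' / (c / 2)) * μ F) + ENNReal.ofReal E * μ F := by gcongr
    _ = ENNReal.ofReal (32 * (C' / (c / 2)) + E) * μ F := by
        have : (32 : ℝ≥0∞) = ENNReal.ofReal 32 := by norm_num
        rw [this, ← mul_assoc, ← ENNReal.ofReal_mul (by norm_num), ← add_mul,
          ← ENNReal.ofReal_add (by positivity) hE0.le]

end Pool.Agent.helper21.WB
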