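import Pool.Agent.helper21.WT.I2

/-! MP_7b8095_gt, part I3 and I4: separation outside the deep part and the separated nets. -/

set_option autoImplicit false
open Matrix MeasureTheory

namespace Pool.Agent.helper21.WB

namespace I3

/-- the elements moving `y` by at most `1` -/
def Nset (Γ : Subgroup GLI) (y : X) : Set GLI := {γ | γ ∈ Γ ∧ hd y (act γ y) ≤ 1}

theorem finite_Nset {Γ : Subgroup GLI} (hΓ : Disc Γ) (y : X) : (Nset Γ y).Finite := by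
  refine (finite_near hΓ y 0 1).subset ?_
  rintro γ ⟨h1, h2⟩
  exact ⟨h1, y, (hd_self y).le, h2⟩

/-- the closed ball of radius `1/2` -/
def B (y : X) : Set X := {z | hd y z ≤ 1 / 2}

/-- the saturation of the ball -/
def GB (Γ : Subgroup GLI) (y : X) : Set X := {x | ∃ γ ∈ Γ, act γ x ∈ B y}

theorem measurableSet_B (y : X) : MeasurableSet (B y) := (isCompact_hball y (1 / 2)).measurableSet

theorem measurable_act {g : GLI} (hg : InG g) : Measurable (act g) := (continuous_act hg).measurable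

theorem measurableSet_GB {Γ : Subgroup GLI} (hΓ : Disc Γ) (y : X) : MeasurableSet (GB Γ y) := by
  have := countable_of_disc hΓ
  have : GB Γ y = ⋃ γ : Γ, (act γ.1) ⁻¹' (B y) := by
    ext x
    simp [GB]
  rw [this]
  exact MeasurableSet.iUnion (fun γ => measurable_act (hΓ.inG γ.1 γ.2) (measurableSet_B y))

/-- bound for the number of elements moving `y` by at most one -/
theorem card_Nset : ∃ η₀ : ℝ, 0 < η₀ ∧ ∀ η : ℝ, 0 < η → η ≤ η₀ → ∃ C : ℝ, 0 < C ∧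
    ∀ (Γ : Subgroup GLI), Disc Γ → ∀ y, y ∉ Deep Γ η →
      ((Nset Γ y).ncard : ℝ) ≤ C / sinf Γ y ^ 2 := by
  obtain ⟨η₀, h0, h⟩ := count_small
  obtain ⟨C₂, hC2, h2⟩ := count_near η₀ h0
  refine ⟨η₀, h0, fun η he hle => ?_⟩
  obtain ⟨C₁, hC1, h1⟩ := h η he hle
  refine ⟨C₂ * Real.exp (C₂ * 1) * C₁, by positivity, fun Γ hΓ y hy => ?_⟩
  have a1 := h1 Γ hΓ y (sinf Γ y) (sinf_pos hΓ y) (sinf_le_one y)
    (fun γ hγ hne => sinf_le hγ hne) hy
  have a2 := h2 Γ hΓ y 1 zero_le_one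
  calc ((Nset Γ y).ncard : ℝ) ≤ C₂ * Real.exp (C₂ * 1) *
        ({γ | γ ∈ Γ ∧ sm y γ ≤ η₀}.ncard : ℝ) := a2
    _ ≤ C₂ * Real.exp (C₂ * 1) * (C₁ / sinf Γ y ^ 2) := by gcongr
    _ = C₂ * Real.exp (C₂ * 1) * C₁ / sinf Γ y ^ 2 := by ring

/-- the image of the ball has volume at least `c s²` -/
theorem vol_GB : ∃ η₀ : ℝ, 0 < η₀ ∧ ∀ η : ℝ, 0 < η → η ≤ η₀ → ∃ c : ℝ, 0 < c ∧
    ∀ (Γ : Subgroup GLI) (F : Set X), Lat Γ F → ∀ y, y ∉ Deep Γ η →
      ENNReal.ofReal (c * sinf Γ y ^ 2) ≤ μ (F ∩ GB Γ y) := by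
  obtain ⟨η₀, h0, h⟩ := card_Nset
  refine ⟨η₀, h0, fun η he hle => ?_⟩
  obtain ⟨C, hC, h1⟩ := h η he hle
  have hv : 0 < vb (1 / 2) := vb_pos (by norm_num)
  refine ⟨vb (1 / 2) / C, by positivity, fun Γ F hL y hy => ?_⟩
  have hΓ := hL.toDisc
  have hs := sinf_pos hΓ y
  have a1 := h1 Γ hΓ y hy
  have a2 : μ (B y) ≤ ((Nset Γ y).ncard : ℕ) * μ (F ∩ GB Γ y) := by
    refine fd_image hΓ hL.fd (B y) (measurableSet_B y) _ ?_
    intro z hz
    refine (Set.encard_le_encard (t := Nset Γ y) ?_).trans ?_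
    · rintro γ ⟨g1, g2⟩
      refine ⟨g1, ?_⟩
      have t1 := hd_triangle y (act γ z) (act γ y)
      have t2 : hd (act γ z) (act γ y) = hd y z := by
        rw [hd_act (hΓ.inG γ g1), hd_comm]
      have t3 : hd y z ≤ 1 / 2 := hz
      have t4 : hd y (act γ z) ≤ 1 / 2 := g2
      show hd y (act γ y) ≤ 1
      linarith
    · rw [← (finite_Nset hΓ y).cast_ncard_eq]
  have a3 : μ (B y) = ENNReal.ofReal (vb (1 / 2)) := μ_hball y (1 / 2)
  rw [a3] at a2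
  have a4 : (((Nset Γ y).ncard : ℕ) : ENNReal) ≤ ENNReal.ofReal (C / sinf Γ y ^ 2) := by
    rw [← ENNReal.ofReal_natCast]
    exact ENNReal.ofReal_le_ofReal a1
  have a5 : ENNReal.ofReal (vb (1 / 2)) ≤ ENNReal.ofReal (C / sinf Γ y ^ 2) * μ (F ∩ GB Γ y) :=
    a2.trans (by gcongr)
  have a6 : ENNReal.ofReal (sinf Γ y ^ 2 / C) * ENNReal.ofReal (vb (1 / 2)) ≤
      ENNReal.ofReal (sinf Γ y ^ 2 / C) * (ENNReal.ofReal (C / sinf Γ y ^ 2) * μ (F ∩ GB Γ y)) := by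
    gcongr
  rw [← mul_assoc, ← ENNReal.ofReal_mul (by positivity), ← ENNReal.ofReal_mul (by positivity)] at a6
  have e1 : sinf Γ y ^ 2 / C * (C / sinf Γ y ^ 2) = 1 := by field_simp
  have e2 : sinf Γ y ^ 2 / C * vb (1 / 2) = vb (1 / 2) / C * sinf Γ y ^ 2 := by ring
  rw [e1, e2, ENNReal.ofReal_one, one_mul] at a6
  exact a6

/-- on the saturated ball the scale is at most `e` times the scale at the centre -/
theorem sinf_le_of_mem_GB {Γ : Subgroup GLI} (hΓ : Disc Γ) {y x : X} (hx : x ∈ GB Γ y) :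
    sinf Γ x ≤ Real.exp 1 * sinf Γ y := by
  obtain ⟨γ, hγ, h⟩ := hx
  rw [← sinf_act hΓ hγ x]
  refine (sinf_lip hΓ y (act γ x)).trans ?_
  have h' : hd y (act γ x) ≤ 1 / 2 := h
  have := (sinf_pos hΓ y).le
  gcongr
  linarith

theorem measurable_sinf_rpow {Γ : Subgroup GLI} (hΓ : Disc Γ) (p : ℝ) :
    Measurable (fun y => ENNReal.ofReal (sinf Γ y ^ p)) :=
  ((continuous_sinf hΓ).measurable.pow_const p).ennreal_ofReal

/-- integral over the saturated ball from below -/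
theorem lint_GB {Γ : Subgroup GLI} (hΓ : Disc Γ) (F : Set X) (y : X) (p : ℝ) (hp : 0 ≤ p) :
    ENNReal.ofReal ((Real.exp 1 * sinf Γ y) ^ (-p)) * μ (F ∩ GB Γ y) ≤
      ∫⁻ x in F ∩ GB Γ y, ENNReal.ofReal (sinf Γ x ^ (-p)) ∂μ := by
  rw [← setLIntegral_const]
  refine setLIntegral_mono (measurable_sinf_rpow hΓ (-p)) ?_
  rintro x ⟨_, hx⟩
  refine ENNReal.ofReal_le_ofReal ?_
  exact Real.rpow_le_rpow_of_nonpos (sinf_pos hΓ x) (sinf_le_of_mem_GB hΓ hx) (by linarith)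

end I3

open I3

/-- [I3] Separation at every point outside the deep part. -/
theorem separation : ∃ η₀ : ℝ, 0 < η₀ ∧ ∀ η : ℝ, 0 < η → η ≤ η₀ → ∃ C : ℝ, 1 ≤ C ∧
    ∀ (Γ : Subgroup GLI) (F : Set X), Lat Γ F → ∀ y, y ∉ Deep Γ η → ∀ γ ∈ Γ, γ ≠ 1 →
    1 / (C * (1 + (μ F).toReal)) ^ 2 ≤ sm y γ := by
  obtain ⟨η₀, h0, h⟩ := vol_GB
  obtain ⟨C₄, hC4, hM⟩ := margulis'
  refine ⟨η₀, h0, fun η he hle => ?_⟩
  obtain ⟨c, hc, h1⟩ := h η he hle
  set K : ℝ := C₄ / (c * Real.exp 1 ^ (-(5 / 2) : ℝ)) with hK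
  refine ⟨max 1 K, le_max_left _ _, fun Γ F hL y hy γ hγ hne => ?_⟩
  have hΓ := hL.toDisc
  have hs := sinf_pos hΓ y
  refine le_trans ?_ (sinf_le (y := y) hγ hne)
  set s := sinf Γ y with hsdef
  have b1 := h1 Γ F hL y hy
  have b2 := lint_GB hΓ F y (5 / 2) (by norm_num)
  have b3 := hM Γ F hL
  have b4 : ∫⁻ x in F ∩ GB Γ y, ENNReal.ofReal (sinf Γ x ^ (-(5 / 2) : ℝ)) ∂μ ≤
      ∫⁻ x in F, ENNReal.ofReal (sinf Γ x ^ (-(5 / 2) : ℝ)) ∂μ :=
    lintegral_mono_set Set.inter_subset_left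
  have b5 : ENNReal.ofReal ((Real.exp 1 * s) ^ (-(5 / 2) : ℝ)) * ENNReal.ofReal (c * s ^ 2) ≤
      ENNReal.ofReal C₄ * μ F :=
    calc _ ≤ ENNReal.ofReal ((Real.exp 1 * s) ^ (-(5 / 2) : ℝ)) * μ (F ∩ GB Γ y) := by gcongr
      _ ≤ _ := b2.trans (b4.trans b3)
  have hF : μ F = ENNReal.ofReal (μ F).toReal := (ENNReal.ofReal_toReal hL.fin.ne).symm
  set V := (μ F).toReal with hV
  have hV0 : 0 ≤ V := ENNReal.toReal_nonneg
  rw [hF, ← ENNReal.ofReal_mul (by positivity), ← ENNReal.ofReal_mul (by positivity),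
    ENNReal.ofReal_le_ofReal_iff (by positivity)] at b5
  -- `(e s)^(-5/2) c s² ≤ C₄ V`
  have e1 : (Real.exp 1 * s) ^ (-(5 / 2) : ℝ) * (c * s ^ 2) =
      (c * Real.exp 1 ^ (-(5 / 2) : ℝ)) * s ^ (-(1 / 2) : ℝ) := by
    rw [Real.mul_rpow (Real.exp_pos 1).le hs.le]
    have : s ^ (-(5 / 2) : ℝ) * s ^ 2 = s ^ (-(1 / 2) : ℝ) := by
      rw [← Real.rpow_natCast s 2, ← Real.rpow_add hs]
      norm_num
    rw [← this]; ring
  rw [e1] at b5
  have hce : 0 < c * Real.exp 1 ^ (-(5 / 2) : ℝ) := by positivity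
  have b6 : s ^ (-(1 / 2) : ℝ) ≤ K * V := by
    rw [hK, div_mul_eq_mul_div, le_div_iff₀ hce]
    linarith
  have b7 : s ^ (-(1 / 2) : ℝ) ≤ max 1 K * (1 + V) := by
    have : K * V ≤ max 1 K * (1 + V) := by
      have h1 : K ≤ max 1 K := le_max_right _ _
      have h2 : 0 < max 1 K := lt_of_lt_of_le one_pos (le_max_left _ _)
      nlinarith
    linarith
  have hpos : 0 < s ^ (-(1 / 2) : ℝ) := Real.rpow_pos_of_pos hs _
  have b8 : s⁻¹ = (s ^ (-(1 / 2) : ℝ)) ^ 2 := by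
    rw [← Real.rpow_natCast _ 2, ← Real.rpow_mul hs.le, ← Real.rpow_neg_one]
    norm_num
  have b9 : s⁻¹ ≤ (max 1 K * (1 + V)) ^ 2 := by
    rw [b8]; gcongr
  rw [one_div]
  have := inv_anti₀ (inv_pos.2 hs) b9
  rwa [inv_inv] at this

namespace I3

/-- the pairwise separated finite sets outside the deep part -/
def Good (Γ : Subgroup GLI) (η : ℝ) (Z : Finset X) : Prop :=
  (∀ z ∈ Z, z ∉ Deep Γ η) ∧ (∀ z ∈ Z, ∀ z' ∈ Z, ∀ γ ∈ Γ, hd z (act γ z') ≤ 1 → z = z')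

theorem Good.subset {Γ : Subgroup GLI} {η : ℝ} {Z Z' : Finset X} (h : Good Γ η Z) (hs : Z' ⊆ Z) :
    Good Γ η Z' :=
  ⟨fun z hz => h.1 z (hs hz), fun z hz z' hz' => h.2 z (hs hz) z' (hs hz')⟩

theorem disjoint_GB {Γ : Subgroup GLI} (hΓ : Disc Γ) {η : ℝ} {Z : Finset X} (h : Good Γ η Z)
    {z z' : X} (hz : z ∈ Z) (hz' : z' ∈ Z) (hne : z ≠ z') : Disjoint (GB Γ z) (GB Γ z') := by
  rw [Set.disjoint_left]
  rintro x ⟨γ, hγ, h1⟩ ⟨δ, hδ, h2⟩
  apply hne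
  have h1' : hd z (act γ x) ≤ 1 / 2 := h1
  have h2' : hd z' (act δ x) ≤ 1 / 2 := h2
  refine h.2 z hz z' hz' (γ * δ⁻¹) (Γ.mul_mem hγ (Γ.inv_mem hδ)) ?_
  have t1 := hd_triangle z (act γ x) (act (γ * δ⁻¹) z')
  have t2 : hd (act γ x) (act (γ * δ⁻¹) z') = hd z' (act δ x) := by
    have : act γ x = act (γ * δ⁻¹) (act δ x) := by
      rw [← act_mul (hΓ.inG δ hδ)]; congr 1; group
    rw [this, hd_act (hΓ.inG _ (Γ.mul_mem hγ (Γ.inv_mem hδ))), hd_comm]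
  linarith

/-- the integral form of the counting bound -/
theorem card_le_lint : ∃ η₀ : ℝ, 0 < η₀ ∧ ∀ η : ℝ, 0 < η → η ≤ η₀ → ∃ c : ℝ, 0 < c ∧
    ∀ (Γ : Subgroup GLI) (F : Set X), Lat Γ F → ∀ Z : Finset X, Good Γ η Z →
      ∀ E : Set X, (∀ γ ∈ Γ, ∀ y, act γ y ∈ E ↔ y ∈ E) →
      (∀ z ∈ Z, ∀ y, hd z y ≤ 1 / 2 → y ∈ E) →
      (Z.card : ENNReal) * ENNReal.ofReal c ≤
        ∫⁻ x in F ∩ E, ENNReal.ofReal (sinf Γ x ^ (-2 : ℝ)) ∂μ := by
  obtain ⟨η₀, h0, h⟩ := vol_GB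
  refine ⟨η₀, h0, fun η he hle => ?_⟩
  obtain ⟨c, hc, h1⟩ := h η he hle
  refine ⟨c * Real.exp 1 ^ (-2 : ℝ), by positivity, fun Γ F hL Z hZ E hE hZE => ?_⟩
  have hΓ := hL.toDisc
  have key : ∀ z ∈ Z, ENNReal.ofReal (c * Real.exp 1 ^ (-2 : ℝ)) ≤
      ∫⁻ x in F ∩ GB Γ z, ENNReal.ofReal (sinf Γ x ^ (-2 : ℝ)) ∂μ := by
    intro z hz
    have hs := sinf_pos hΓ z
    have b1 := h1 Γ F hL z (hZ.1 z hz)
    have b2 := lint_GB hΓ F z 2 (by norm_num)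
    calc ENNReal.ofReal (c * Real.exp 1 ^ (-2 : ℝ)) =
          ENNReal.ofReal ((Real.exp 1 * sinf Γ z) ^ (-2 : ℝ)) * ENNReal.ofReal (c * sinf Γ z ^ 2) := by
          rw [← ENNReal.ofReal_mul (by positivity), Real.mul_rpow (Real.exp_pos 1).le hs.le]
          congr 1
          have : sinf Γ z ^ (-2 : ℝ) * sinf Γ z ^ 2 = 1 := by
            rw [← Real.rpow_natCast _ 2, ← Real.rpow_add hs]
            norm_num
          linear_combination (-(c * Real.exp 1 ^ (-2 : ℝ))) * this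
      _ ≤ ENNReal.ofReal ((Real.exp 1 * sinf Γ z) ^ (-2 : ℝ)) * μ (F ∩ GB Γ z) := by gcongr
      _ ≤ _ := b2
  calc (Z.card : ENNReal) * ENNReal.ofReal (c * Real.exp 1 ^ (-2 : ℝ)) =
        ∑ z ∈ Z, ENNReal.ofReal (c * Real.exp 1 ^ (-2 : ℝ)) := by simp
    _ ≤ ∑ z ∈ Z, ∫⁻ x in F ∩ GB Γ z, ENNReal.ofReal (sinf Γ x ^ (-2 : ℝ)) ∂μ :=
        Finset.sum_le_sum key
    _ = ∫⁻ x in ⋃ z ∈ Z, F ∩ GB Γ z, ENNReal.ofReal (sinf Γ x ^ (-2 : ℝ)) ∂μ := by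
        rw [lintegral_biUnion_finset]
        · intro z hz z' hz' hne
          exact (disjoint_GB hΓ hZ hz hz' hne).mono Set.inter_subset_right Set.inter_subset_right
        · intro z _
          exact hL.fd.1.inter (measurableSet_GB hΓ z)
    _ ≤ ∫⁻ x in F ∩ E, ENNReal.ofReal (sinf Γ x ^ (-2 : ℝ)) ∂μ := by
        refine lintegral_mono_set ?_
        intro x hx
        simp only [Set.mem_iUnion] at hx
        obtain ⟨z, hz, hxF, γ, hγ, hB⟩ := hx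
        exact ⟨hxF, (hE γ hγ x).1 (hZE z hz _ hB)⟩

/-- Hölder -/
theorem hoelder {Γ : Subgroup GLI} (hΓ : Disc Γ) (S : Set X) :
    ∫⁻ x in S, ENNReal.ofReal (sinf Γ x ^ (-2 : ℝ)) ∂μ ≤
      (∫⁻ x in S, ENNReal.ofReal (sinf Γ x ^ (-(5 / 2) : ℝ)) ∂μ) ^ (4 / 5 : ℝ) *
        μ S ^ (1 / 5 : ℝ) := by
  have hpq : Real.HolderConjugate (5 / 4) 5 := by
    rw [Real.holderConjugate_iff]; norm_num
  have h := ENNReal.lintegral_mul_le_Lp_mul_Lq (μ.restrict S) hpq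
    (f := fun x => ENNReal.ofReal (sinf Γ x ^ (-2 : ℝ))) (g := fun _ => 1)
    (measurable_sinf_rpow hΓ (-2)).aemeasurable aemeasurable_const
  have e1 : ∀ x, ENNReal.ofReal (sinf Γ x ^ (-2 : ℝ)) ^ (5 / 4 : ℝ) =
      ENNReal.ofReal (sinf Γ x ^ (-(5 / 2) : ℝ)) := by
    intro x
    have hs := sinf_pos hΓ x
    rw [ENNReal.ofReal_rpow_of_pos (Real.rpow_pos_of_pos hs _), ← Real.rpow_mul hs.le]
    norm_num
  simp only [e1, Pi.mul_apply, mul_one, ENNReal.one_rpow, lintegral_const, Measure.restrict_apply,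
    MeasurableSet.univ, Set.univ_inter, one_mul] at h
  convert h using 3
  norm_num

end I3

/-- [I4] A maximal separated set outside the deep part, with the counting bound. -/
theorem exists_Z : ∃ η₀ : ℝ, 0 < η₀ ∧ ∀ η : ℝ, 0 < η → η ≤ η₀ → ∃ C : ℝ, 1 ≤ C ∧
    ∀ (Γ : Subgroup GLI) (F : Set X), Lat Γ F → ∃ Z : Finset X,
      (∀ z ∈ Z, z ∉ Deep Γ η) ∧
      (∀ x, x ∉ Deep Γ η → ∃ z ∈ Z, ∃ γ ∈ Γ, hd x (act γ z) ≤ 1) ∧
      (∀ z ∈ Z, ∀ z' ∈ Z, ∀ γ ∈ Γ, hd z (act γ z') ≤ 1 → z = z') ∧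
      (∀ E : Set X, MeasurableSet E → (∀ γ ∈ Γ, ∀ y, act γ y ∈ E ↔ y ∈ E) →
        ∀ Z' ⊆ Z, (∀ z ∈ Z', ∀ y, hd z y ≤ 1 / 2 → y ∈ E) →
        (Z'.card : ℝ) ≤ C * ((μ (F ∩ E)).toReal +
          (μ F).toReal ^ (4 / 5 : ℝ) * (μ (F ∩ E)).toReal ^ (1 / 5 : ℝ))) ∧
      (∀ D : ℝ, 1 ≤ D → ∀ z, ∀ Z' ⊆ Z, (∀ z' ∈ Z', ∃ γ ∈ Γ, hd z (act γ z') ≤ D) →
        (Z'.card : ℝ) ≤ Real.exp (C * D)) := by
  classical
  obtain ⟨η₀, h0, h⟩ := card_le_lint
  obtain ⟨C₄, hC4, hM⟩ := margulis'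
  refine ⟨η₀, h0, fun η he hle => ?_⟩
  obtain ⟨c, hc, h1⟩ := h η he hle
  have hv : 0 < vb (1 / 2) := vb_pos (by norm_num)
  set A : ℝ := Real.pi ^ 2 / 12 * Real.exp (3 / 2) / vb (1 / 2) with hA
  have hA0 : 0 < A := by positivity
  set K : ℝ := C₄ ^ (4 / 5 : ℝ) / c with hK
  have hK0 : 0 < K := by positivity
  refine ⟨max 1 (max K (A + 3)), le_max_left _ _, fun Γ F hL => ?_⟩
  set C := max 1 (max K (A + 3)) with hCdef
  have hC1 : 1 ≤ C := le_max_left _ _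
  have hCK : K ≤ C := (le_max_left _ _).trans (le_max_right _ _)
  have hCA : A + 3 ≤ C := (le_max_right _ _).trans (le_max_right _ _)
  have hΓ := hL.toDisc
  -- the counting bound
  have count : ∀ Z : Finset X, Good Γ η Z → ∀ E : Set X, (∀ γ ∈ Γ, ∀ y, act γ y ∈ E ↔ y ∈ E) →
      (∀ z ∈ Z, ∀ y, hd z y ≤ 1 / 2 → y ∈ E) →
      (Z.card : ℝ) ≤ K * ((μ F).toReal ^ (4 / 5 : ℝ) * (μ (F ∩ E)).toReal ^ (1 / 5 : ℝ)) := by
    intro Z hZ E hE hZE
    have a1 := h1 Γ F hL Z hZ E hE hZE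
    have a2 := a1.trans (hoelder hΓ (F ∩ E))
    have a3 : ∫⁻ x in F ∩ E, ENNReal.ofReal (sinf Γ x ^ (-(5 / 2) : ℝ)) ∂μ ≤
        ENNReal.ofReal C₄ * μ F :=
      (lintegral_mono_set Set.inter_subset_left).trans (hM Γ F hL)
    have hFE : μ (F ∩ E) ≠ ⊤ := ne_top_of_le_ne_top hL.fin.ne (measure_mono Set.inter_subset_left)
    have a4 : (Z.card : ENNReal) * ENNReal.ofReal c ≤
        (ENNReal.ofReal C₄ * μ F) ^ (4 / 5 : ℝ) * μ (F ∩ E) ^ (1 / 5 : ℝ) := by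
      refine a2.trans ?_
      gcongr
    have e1 : μ F = ENNReal.ofReal (μ F).toReal := (ENNReal.ofReal_toReal hL.fin.ne).symm
    have e2 : μ (F ∩ E) = ENNReal.ofReal (μ (F ∩ E)).toReal := (ENNReal.ofReal_toReal hFE).symm
    set V := (μ F).toReal with hV
    set W := (μ (F ∩ E)).toReal with hW
    have hV0 : 0 ≤ V := ENNReal.toReal_nonneg
    have hW0 : 0 ≤ W := ENNReal.toReal_nonneg
    have hz0 : (0:ℝ) ≤ (Z.card : ℝ) := Nat.cast_nonneg _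
    have hz1 : (Z.card : ENNReal) = ENNReal.ofReal (Z.card : ℝ) := (ENNReal.ofReal_natCast _).symm
    have hCV : 0 ≤ C₄ * V := mul_nonneg hC4.le hV0
    have hCVp : 0 ≤ (C₄ * V) ^ (4 / 5 : ℝ) := Real.rpow_nonneg hCV _
    have hWp : 0 ≤ W ^ (1 / 5 : ℝ) := Real.rpow_nonneg hW0 _
    rw [e1, e2, hz1, ← ENNReal.ofReal_mul hC4.le,
      ENNReal.ofReal_rpow_of_nonneg hCV (by norm_num),
      ENNReal.ofReal_rpow_of_nonneg hW0 (by norm_num), ← ENNReal.ofReal_mul hCVp,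
      ← ENNReal.ofReal_mul hz0,
      ENNReal.ofReal_le_ofReal_iff (mul_nonneg hCVp hWp), Real.mul_rpow hC4.le hV0] at a4
    rw [hK, div_mul_eq_mul_div, le_div_iff₀ hc]
    linarith
  -- a separated set of maximal cardinality
  have bound : ∀ Z : Finset X, Good Γ η Z → Z.card ≤ ⌈K * ((μ F).toReal ^ (4 / 5 : ℝ) *
      (μ (F ∩ Set.univ)).toReal ^ (1 / 5 : ℝ))⌉₊ := by
    intro Z hZ
    have := count Z hZ Set.univ (fun γ _ y => ⟨fun _ => Set.mem_univ y, fun _ => Set.mem_univ _⟩)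
      (fun z _ y _ => Set.mem_univ y)
    exact_mod_cast this.trans (Nat.le_ceil _)
  obtain ⟨Z, hZ, hmax⟩ : ∃ Z : Finset X, Good Γ η Z ∧ ∀ Z', Good Γ η Z' → Z'.card ≤ Z.card := by
    set P : ℕ → Prop := fun n => ∃ Z : Finset X, Good Γ η Z ∧ Z.card = n with hP
    have hP0 : P 0 := ⟨∅, ⟨fun z hz => absurd hz (Finset.notMem_empty z),
      fun z hz => absurd hz (Finset.notMem_empty z)⟩, rfl⟩
    obtain ⟨Z, hZ, hn⟩ := Nat.findGreatest_spec (P := P) (Nat.zero_le (⌈K * ((μ F).toReal ^ (4 / 5 : ℝ) *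
      (μ (F ∩ Set.univ)).toReal ^ (1 / 5 : ℝ))⌉₊)) hP0
    refine ⟨Z, hZ, fun Z' hZ' => ?_⟩
    rw [hn]
    exact Nat.le_findGreatest (bound Z' hZ') ⟨Z', hZ', rfl⟩
  refine ⟨Z, hZ.1, ?_, hZ.2, ?_, ?_⟩
  · -- density
    intro x hx
    by_contra hno
    push Not at hno
    have hxZ : x ∉ Z := by
      intro hmem
      have := hno x hmem 1 Γ.one_mem
      rw [act_one, hd_self] at this
      linarith
    have hG : Good Γ η (insert x Z) := by
      refine ⟨?_, ?_⟩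
      · intro z hz
        rcases Finset.mem_insert.1 hz with rfl | hz
        · exact hx
        · exact hZ.1 z hz
      · intro z hz z' hz' γ hγ hd1
        rcases Finset.mem_insert.1 hz with e | m <;> rcases Finset.mem_insert.1 hz' with e' | m'
        · rw [e, e']
        · rw [e] at hd1
          exact absurd hd1 (not_le.2 (hno z' m' γ hγ))
        · exfalso
          rw [e'] at hd1
          have h2 := hno z m γ⁻¹ (Γ.inv_mem hγ)
          have h3 : hd x (act γ⁻¹ z) = hd z (act γ x) := by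
            rw [← hd_act (hΓ.inG γ hγ) x, act_act_inv (hΓ.inG γ hγ), hd_comm]
          linarith
        · exact hZ.2 z m z' m' γ hγ hd1
    have := hmax _ hG
    rw [Finset.card_insert_of_notMem hxZ] at this
    omega
  · -- counting
    intro E _ hE Z' hZ' hZE
    refine (count Z' (hZ.subset hZ') E hE hZE).trans ?_
    have hV0 : 0 ≤ (μ F).toReal := ENNReal.toReal_nonneg
    have hW0 : 0 ≤ (μ (F ∩ E)).toReal := ENNReal.toReal_nonneg
    have hp : 0 ≤ (μ F).toReal ^ (4 / 5 : ℝ) * (μ (F ∩ E)).toReal ^ (1 / 5 : ℝ) := by positivity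
    have : 0 ≤ C * (μ (F ∩ E)).toReal := by positivity
    nlinarith
  · -- local finiteness
    intro D hD z Z' hZ' hnear
    choose! g hg1 hg2 using hnear
    -- disjoint balls of radius `1/2` in the ball of radius `D + 1/2`
    have hdisj : (Z' : Set X).PairwiseDisjoint (fun z' => B (act (g z') z')) := by
      intro a ha b hb hne
      rw [Function.onFun, Set.disjoint_left]
      intro x hxa hxb
      apply hne
      have hxa' : hd (act (g a) a) x ≤ 1 / 2 := hxa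
      have hxb' : hd (act (g b) b) x ≤ 1 / 2 := hxb
      have hga := hg1 a ha
      have hgb := hg1 b hb
      refine hZ.2 a (hZ' ha) b (hZ' hb) ((g a)⁻¹ * g b) (Γ.mul_mem (Γ.inv_mem hga) hgb) ?_
      have e1 : hd a (act ((g a)⁻¹ * g b) b) = hd (act (g a) a) (act (g b) b) := by
        rw [← hd_act (hΓ.inG _ hga) a, ← act_mul ((hΓ.inG _ (Γ.inv_mem hga)).mul (hΓ.inG _ hgb))]
        · congr 2; group
      rw [e1]
      have t := hd_triangle (act (g a) a) x (act (g b) b)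
      rw [hd_comm x] at t
      linarith
    have hsub : (⋃ z' ∈ Z', B (act (g z') z')) ⊆ {x | hd z x ≤ D + 1 / 2} := by
      intro x hx
      simp only [Set.mem_iUnion] at hx
      obtain ⟨a, ha, hxa⟩ := hx
      have hxa' : hd (act (g a) a) x ≤ 1 / 2 := hxa
      have t := hd_triangle z (act (g a) a) x
      have := hg2 a ha
      show hd z x ≤ D + 1 / 2
      linarith
    have m1 : μ (⋃ z' ∈ Z', B (act (g z') z')) = Z'.card * ENNReal.ofReal (vb (1 / 2)) := by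
      rw [measure_biUnion_finset hdisj (fun a _ => measurableSet_B _)]
      have : ∀ a ∈ Z', μ (B (act (g a) a)) = ENNReal.ofReal (vb (1 / 2)) := fun a _ => μ_hball _ _
      rw [Finset.sum_congr rfl this]; simp
    have m2 : (Z'.card : ENNReal) * ENNReal.ofReal (vb (1 / 2)) ≤ ENNReal.ofReal (vb (D + 1 / 2)) := by
      rw [← m1, ← μ_hball z]
      exact measure_mono hsub
    have hvD : 0 < vb (D + 1 / 2) := vb_pos (by linarith)
    rw [← ENNReal.ofReal_natCast, ← ENNReal.ofReal_mul (by positivity),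
      ENNReal.ofReal_le_ofReal_iff hvD.le] at m2
    have m3 := vb_le (D + 1 / 2) (by linarith)
    have m4 : (Z'.card : ℝ) ≤ A * Real.exp (3 * D) := by
      rw [hA, div_mul_eq_mul_div, le_div_iff₀ hv]
      refine (m2.trans m3).trans (le_of_eq ?_)
      rw [mul_assoc (Real.pi ^ 2 / 12), ← Real.exp_add]
      congr 2; ring
    refine m4.trans ?_
    have m5 : A ≤ Real.exp A := by
      have := Real.add_one_le_exp A; linarith
    have m6 : Real.exp A ≤ Real.exp (A * D) := Real.exp_le_exp.2 (by nlinarith)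
    calc A * Real.exp (3 * D) ≤ Real.exp (A * D) * Real.exp (3 * D) := by
          gcongr; exact m5.trans m6
      _ = Real.exp ((A + 3) * D) := by rw [← Real.exp_add]; congr 1; ring
      _ ≤ Real.exp (C * D) := by
          apply Real.exp_le_exp.2
          have : 0 ≤ D := by linarith
          nlinarith

end Pool.Agent.helper21.WB
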