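import Pool.Agent.helper96.WB.MA12
import Pool.Agent.helper39.WB.MA3
import Pool.Agent.helper70.WB.MK
import Pool.Agent.helper36.WB.MK2
import Pool.Agent.helper36.WB.MB1
import Pool.Agent.helper2.WB.MB2W
import Pool.Agent.helper26.WB.MC
import Pool.Agent.helper30.WB.MD1
import Pool.Agent.helper2.WB.MD2
import Pool.Agent.helper22.WB.MD3
import Pool.Agent.helper88.WB.ME0
import Pool.Agent.helper7.WB.ME1
import Pool.Agent.helper7.WB.ME2
import Pool.Agent.helper78.WB.MF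
import Pool.Agent.helper78.WB.MG
import Pool.Agent.helper21.WT.I3

set_option autoImplicit false
open Matrix MeasureTheory Filter Topology

namespace Pool.Agent.helper88.WB
open Pool.Agent.helper21.WB

theorem exZ : ME1.ExZ := by
  obtain ⟨η₀, h0, H⟩ := exists_Z
  refine ⟨η₀, h0, fun η h1 h2 Γ F hL => ?_⟩
  obtain ⟨C, hC, H⟩ := H η h1 h2
  obtain ⟨Z, -, h, -⟩ := H Γ F hL
  exact ⟨Z, h⟩

/-- [ME1] almost every boundary point is conical (from `exists_Z` and `exists_horo`). -/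
theorem conical {Γ : Subgroup GLI} {F₀ : Set X} (hL : Lat Γ F₀) : ∃ r : ℝ, ∀ᵐ x : E,
    ∀ ε : ℝ, 0 < ε → ∃ t : ℝ, 0 < t ∧ t < ε ∧ ∃ γ ∈ Γ, hd (hp x t) (act γ 0) ≤ r :=
  conical_of_exists_Z exZ hL

theorem boundary_map (a : ℝ) : ∃ D H : ℝ, 0 < H ∧ ∀ F F' : X → X, NI D a F → NI D a F' →
    (∀ x, hd (F' (F x)) x ≤ a) → (∀ x, hd (F (F' x)) x ≤ a) →
    ∃ θ θ' : (Fin 4 → ℝ) → (Fin 4 → ℝ), Set.MapsTo θ Sph Sph ∧ Set.MapsTo θ' Sph Sph ∧
      ContinuousOn θ Sph ∧ ContinuousOn θ' Sph ∧ (∀ u ∈ Sph, θ' (θ u) = u) ∧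
      (∀ u ∈ Sph, θ (θ' u) = u) ∧
      (∀ (x : ℕ → X) (u : Fin 4 → ℝ), u ∈ Sph → Tendsto (fun n => kp (x n)) atTop (𝓝 u) →
        Tendsto (fun n => kp (F (x n))) atTop (𝓝 (θ u))) ∧
      QM H θ := MC.boundary_map_of a (coarse₂ a)

end Pool.Agent.helper88.WB
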